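import Pool.Agent.Run7.h8.Count4

set_option autoImplicit false
set_option linter.unusedVariables false
set_option linter.unusedSimpArgs false
set_option linter.unusedSectionVars false

namespace Run7.h8

open Matrix Finset Classical Filter Topology

noncomputable section

section

variable {X Y : Type*} [Fintype X] [Fintype Y]

/-- `H` has a finite induced-saturated graph, with an explicit bound for its size. -/
def HasSat (H : SimpleGraph X) : Prop :=
  ∃ m : ℕ, Fintype.card X ≤ m ∧ m < 2 ^ Fintype.card X ∧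
    ∃ G : SimpleGraph (Fin m), IndSat H G

theorem IndSat.congr_left {V V' W : Type*} {H : SimpleGraph V} {H' : SimpleGraph V'}
    {G : SimpleGraph W} (h : IndSat H G) (e : H ≃g H') : IndSat H' G := by
  refine ⟨⟨fun f => h.1.elim (e.toEmbedding.trans f)⟩, fun G' hG' => ?_⟩
  obtain ⟨f⟩ := h.2 G' hG'
  exact ⟨e.symm.toEmbedding.trans f⟩

theorem HasSat.congr {H : SimpleGraph X} {H' : SimpleGraph Y} (h : HasSat H) (e : H ≃g H') :
    HasSat H' := by
  obtain ⟨m, h1, h2, G, hG⟩ := h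
  have hc : Fintype.card X = Fintype.card Y := Fintype.card_congr e.toEquiv
  rw [hc] at h1 h2
  exact ⟨m, h1, h2, G, hG.congr_left e⟩

/-- adjacency matrix over the field with two elements -/
def matOf (H : SimpleGraph X) : Matrix X X (ZMod 2) :=
  Matrix.of fun x y => if H.Adj x y then 1 else 0

theorem matOf_one {H : SimpleGraph X} {x y : X} : matOf H x y = 1 ↔ H.Adj x y := by
  unfold matOf
  rw [of_apply]
  by_cases h : H.Adj x y <;> simp [h]

theorem matOf_alt (H : SimpleGraph X) : IsAltM (matOf H) where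
  symm := by
    ext x y
    simp only [transpose_apply, matOf, of_apply, H.adj_comm x y]
  diag x := by simp [matOf]

theorem matOf_inj : Function.Injective (matOf : SimpleGraph X → Matrix X X (ZMod 2)) := by
  intro H H' h
  ext x y
  rw [← matOf_one, ← matOf_one, h]

theorem matOf_surj {A : Matrix X X (ZMod 2)} (hA : IsAltM A) :
    ∃ H : SimpleGraph X, matOf H = A := by
  refine ⟨⟨fun x y => A x y = 1, ⟨fun x y h => by rw [hA.apply]; exact h⟩,
    ⟨fun x h => by rw [hA.diag] at h; exact zero_ne_one h⟩⟩, ?_⟩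
  ext x y
  apply z2_eq_of_iff
  rw [matOf_one]

theorem card_graphs : Nat.card (SimpleGraph X) = (altF X).card := by
  have e : SimpleGraph X ≃ {A // A ∈ altF X} :=
    Equiv.ofBijective (fun H => ⟨matOf H, mem_altF.2 (matOf_alt H)⟩)
      ⟨fun H H' h => matOf_inj (congrArg Subtype.val h), fun A => by
        obtain ⟨H, hH⟩ := matOf_surj (mem_altF.1 A.2)
        exact ⟨H, Subtype.ext hH⟩⟩
  rw [Nat.card_congr e, Nat.card_eq_fintype_card, Fintype.card_coe]

theorem hasSat_of {H : SimpleGraph X} (h : ¬ badM (matOf H)) : HasSat H := by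
  unfold badM at h
  rw [not_not] at h
  obtain ⟨⟨x, y, c, h1⟩, x', y', c', h2⟩ := h
  exact exists_indSat (matOf_alt H) (fun x y => matOf_one.symm) c h1 c' h2

theorem card_exc : Nat.card {H : SimpleGraph X // ¬ HasSat H} ≤
    ((altF X).filter badM).card := by
  have h1 : Nat.card {A // A ∈ (altF X).filter badM} = ((altF X).filter badM).card := by
    rw [Nat.card_eq_fintype_card, Fintype.card_coe]
  rw [← h1]
  refine Nat.card_le_card_of_injective
    (fun H : {H : SimpleGraph X // ¬ HasSat H} =>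
      (⟨matOf H.1, mem_filter.2 ⟨mem_altF.2 (matOf_alt H.1), by
        by_contra h
        exact H.2 (hasSat_of h)⟩⟩ : {A // A ∈ (altF X).filter badM})) ?_
  intro H H' h
  exact Subtype.ext (matOf_inj (congrArg Subtype.val h))

theorem card_exc_congr (e : X ≃ Y) : Nat.card {H : SimpleGraph X // ¬ HasSat H} =
    Nat.card {H : SimpleGraph Y // ¬ HasSat H} := by
  refine Nat.card_congr (Equiv.subtypeEquiv e.simpleGraph fun H => ?_)
  have f : H ≃g e.simpleGraph H := ⟨e, by intro a b; simp [Equiv.simpleGraph]⟩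
  exact not_congr ⟨fun h => h.congr f, fun h => h.congr f.symm⟩

theorem card_graphs_congr (e : X ≃ Y) : Nat.card (SimpleGraph X) = Nat.card (SimpleGraph Y) :=
  Nat.card_congr e.simpleGraph

/-- the error bound -/
def bnd (K m k : ℕ) : ℝ :=
  2 * ((2 / K + 2 * 2 ^ (2 * m) / 2 ^ k) + (1 - (1 / (4 * (K : ℝ) ^ 2)) / 2) ^ m) +
    (k : ℝ) ^ 2 * ((k : ℝ) + (k : ℝ) ^ 2) * 2 / 2 ^ k

theorem exc_fin {K m n : ℕ} (hK : 0 < K) (hsize : 2 * (K * 2 ^ (2 * m)) ≤ 2 ^ n) :
    (Nat.card {H : SimpleGraph (Fin (2 * m + n)) // ¬ HasSat H} : ℝ) ≤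
      Nat.card (SimpleGraph (Fin (2 * m + n))) * bnd K m (2 * m + n) := by
  have hT : Fintype.card (Fin m × Bool) = 2 * m := by simp [mul_comm]
  have hX : Fintype.card ((Fin m × Bool) ⊕ Fin n) = 2 * m + n := by
    rw [Fintype.card_sum, hT, Fintype.card_fin]
  have e : (Fin m × Bool) ⊕ Fin n ≃ Fin (2 * m + n) :=
    Fintype.equivOfCardEq (by rw [hX, Fintype.card_fin])
  rw [← card_exc_congr e, ← card_graphs_congr e, card_graphs]
  have h1 := badM_bound (ι := Fin m) (O := Fin n) hK (by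
    rw [hT, Fintype.card_fin]; exact hsize)
  rw [hT, hX, Fintype.card_fin] at h1
  exact ((Nat.cast_le (α := ℝ)).2 card_exc).trans h1

theorem tendsto_pow_div (j : ℕ) :
    Tendsto (fun k : ℕ => (k : ℝ) ^ j / 2 ^ k) atTop (𝓝 0) := by
  have h := tendsto_pow_const_div_const_pow_of_one_lt j (show (1 : ℝ) < 2 by norm_num)
  exact h

theorem bnd_tendsto (K m : ℕ) : Tendsto (fun k : ℕ => bnd K m k) atTop
    (𝓝 (2 * (2 / K + (1 - (1 / (4 * (K : ℝ) ^ 2)) / 2) ^ m))) := by
  have h0 : Tendsto (fun k : ℕ => (1 : ℝ) / 2 ^ k) atTop (𝓝 0) := by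
    simpa using tendsto_pow_div 0
  have h3 := tendsto_pow_div 3
  have h4 := tendsto_pow_div 4
  have h : Tendsto (fun k : ℕ => 2 * (2 / K + (1 - (1 / (4 * (K : ℝ) ^ 2)) / 2) ^ m) +
      (4 * 2 ^ (2 * m)) * ((1 : ℝ) / 2 ^ k) + 2 * ((k : ℝ) ^ 3 / 2 ^ k) +
        2 * ((k : ℝ) ^ 4 / 2 ^ k)) atTop
      (𝓝 (2 * (2 / K + (1 - (1 / (4 * (K : ℝ) ^ 2)) / 2) ^ m) +
        (4 * 2 ^ (2 * m)) * 0 + 2 * 0 + 2 * 0)) :=
    (((tendsto_const_nhds.add (h0.const_mul _)).add (h3.const_mul _)).add (h4.const_mul _))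
  rw [mul_zero, mul_zero, add_zero, add_zero, add_zero] at h
  refine h.congr fun k => ?_
  unfold bnd
  ring

theorem bnd_nonneg_of (a b : ℝ) (ha : 0 ≤ a) (hb : 0 ≤ b) : 0 ≤ a / b := div_nonneg ha hb

/-- **Almost all graphs have a finite induced-saturated graph.** -/
theorem almost_all : Tendsto (fun k : ℕ =>
    (Nat.card {H : SimpleGraph (Fin k) // ¬ HasSat H} : ℝ) /
      Nat.card (SimpleGraph (Fin k))) atTop (𝓝 0) := by
  rw [Metric.tendsto_atTop]
  intro ε hε
  -- choose K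
  obtain ⟨K, hK⟩ := exists_nat_gt (8 / ε)
  have hK0 : 0 < K := by
    have : (0 : ℝ) < K := lt_trans (by positivity) hK
    exact_mod_cast this
  have hK1 : 2 * (2 / (K : ℝ)) < ε / 2 := by
    have hKp : (0 : ℝ) < K := by exact_mod_cast hK0
    rw [div_lt_iff₀ hε] at hK
    rw [← mul_div_assoc, div_lt_iff₀ hKp]
    linarith
  -- choose m
  have hq : (0 : ℝ) ≤ 1 - (1 / (4 * (K : ℝ) ^ 2)) / 2 ∧
      1 - (1 / (4 * (K : ℝ) ^ 2)) / 2 < 1 := by
    have h1 : (1 : ℝ) ≤ K := by exact_mod_cast hK0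
    have h4 : (1 : ℝ) ≤ 4 * (K : ℝ) ^ 2 := by nlinarith
    have h5 : 1 / (4 * (K : ℝ) ^ 2) ≤ 1 := by
      rw [div_le_one (by linarith)]; exact h4
    have h6 : 0 < 1 / (4 * (K : ℝ) ^ 2) := by positivity
    constructor <;> linarith
  obtain ⟨m, hm⟩ := exists_pow_lt_of_lt_one (show (0 : ℝ) < ε / 8 by positivity) hq.2
  have hlim : 2 * (2 / K + (1 - (1 / (4 * (K : ℝ) ^ 2)) / 2) ^ m) < ε := by linarith
  have hev := (bnd_tendsto K m).eventually (gt_mem_nhds hlim)
  rw [eventually_atTop] at hev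
  obtain ⟨k0, hk0⟩ := hev
  -- size condition
  obtain ⟨n0, hn0⟩ : ∃ n0 : ℕ, 2 * (K * 2 ^ (2 * m)) ≤ 2 ^ n0 :=
    ⟨2 * (K * 2 ^ (2 * m)), Nat.lt_two_pow_self.le⟩
  refine ⟨max k0 (2 * m + n0), fun k hk => ?_⟩
  obtain ⟨n, rfl⟩ : ∃ n, k = 2 * m + n := ⟨k - 2 * m, by
    have := le_of_max_le_right hk; omega⟩
  have hn : n0 ≤ n := by have := le_of_max_le_right hk; omega
  have hsize : 2 * (K * 2 ^ (2 * m)) ≤ 2 ^ n :=
    hn0.trans (Nat.pow_le_pow_right (by norm_num) hn)
  have h1 := exc_fin hK0 hsize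
  have h2 := hk0 (2 * m + n) (le_of_max_le_left hk)
  have hpos : (0 : ℝ) < Nat.card (SimpleGraph (Fin (2 * m + n))) := by
    exact_mod_cast Nat.card_pos
  rw [Real.dist_eq, sub_zero, abs_of_nonneg (by positivity)]
  refine lt_of_le_of_lt ?_ h2
  rw [div_le_iff₀ hpos]
  linarith

end

end

end Run7.h8
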