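import Pool.Agent.Run7.h8.MatrixForm

set_option autoImplicit false
set_option linter.unusedVariables false
set_option linter.unusedSimpArgs false
set_option linter.unusedSectionVars false

namespace Run7.h8

open Matrix Finset Classical

noncomputable section

section

variable (X : Type*) [Fintype X]

/-- The alternating matrices. -/
def altF : Finset (Matrix X X (ZMod 2)) := univ.filter IsAltM

variable {X}

theorem mem_altF {A : Matrix X X (ZMod 2)} : A ∈ altF X ↔ IsAltM A := by
  simp [altF]

theorem IsAltM.add {A B : Matrix X X (ZMod 2)} (hA : IsAltM A) (hB : IsAltM B) :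
    IsAltM (A + B) where
  symm := by rw [transpose_add, hA.symm, hB.symm]
  diag x := by rw [Matrix.add_apply, hA.diag, hB.diag, add_zero]

theorem mat_add_self (A : Matrix X X (ZMod 2)) : A + A = 0 := by
  ext i j; exact z2_add_self _

/-- matrix supported on the row and the column of `p` -/
def crossM (p : X) (r : X → ZMod 2) : Matrix X X (ZMod 2) :=
  Matrix.of fun x y => if x = p then (if y = p then 0 else r y) else if y = p then r x else 0

theorem crossM_alt (p : X) (r : X → ZMod 2) : IsAltM (crossM p r) where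
  symm := by
    ext x y
    simp only [transpose_apply, crossM, of_apply]
    by_cases h1 : x = p <;> by_cases h2 : y = p <;> simp [h1, h2]
  diag x := by
    simp only [crossM, of_apply]
    by_cases h1 : x = p <;> simp [h1]

theorem crossM_mulVec (p : X) (r z : X → ZMod 2) {x : X} (hx : x ≠ p) :
    (crossM p r *ᵥ z) x = r x * z p := by
  simp only [mulVec, dotProduct, crossM, of_apply, if_neg hx]
  rw [Finset.sum_eq_single p]
  · simp
  · intro b _ hb; simp [hb]
  · intro h; exact absurd (mem_univ p) h

/-- The number of alternating matrices killing a given nonzero vector. -/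
theorem ker_count {z : X → ZMod 2} (hz : z ≠ 0) :
    ((altF X).filter (fun A => A *ᵥ z = 0)).card * 2 ^ Fintype.card X ≤ 2 * (altF X).card := by
  obtain ⟨p, hp⟩ : ∃ p, z p ≠ 0 := by
    by_contra h
    push Not at h
    exact hz (funext h)
  have hp1 := z2_ne_zero hp
  have h1 : (((altF X).filter (fun A => A *ᵥ z = 0)) ×ˢ (univ : Finset (X → ZMod 2))).card =
      ((altF X).filter (fun A => A *ᵥ z = 0)).card * 2 ^ Fintype.card X := by
    rw [card_product]; congr 1
    rw [card_univ, Fintype.card_fun, ZMod.card]
  have h2 : ((altF X) ×ˢ (univ : Finset (ZMod 2))).card = 2 * (altF X).card := by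
    rw [card_product, card_univ, ZMod.card, mul_comm]
  rw [← h1, ← h2]
  refine card_le_card_of_injOn (fun a => (a.1 + crossM p a.2, a.2 p)) ?_ ?_
  · rintro ⟨A, r⟩ h
    simp only [coe_product, coe_filter, coe_univ, Set.mem_prod, Set.mem_ofPred_eq] at h
    simp only [coe_product, coe_univ, Set.mem_prod, Set.mem_univ, and_true, mem_coe]
    rw [mem_altF]
    exact (mem_altF.1 h.1.1).add (crossM_alt p r)
  · rintro ⟨A, r⟩ h ⟨A', r'⟩ h' heq
    simp only [coe_product, coe_filter, coe_univ, Set.mem_prod, Set.mem_ofPred_eq] at h h'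
    simp only [Prod.mk.injEq] at heq
    have hr : r = r' := by
      funext x
      by_cases hx : x = p
      · rw [hx]; exact heq.2
      · have h3 := congrArg (fun M => (M *ᵥ z) x) heq.1
        simp only [add_mulVec, h.1.2, h'.1.2, zero_add] at h3
        rw [crossM_mulVec p r z hx, crossM_mulVec p r' z hx, hp1, mul_one, mul_one] at h3
        exact h3
    subst hr
    have := add_right_cancel heq.1
    rw [this]

/-- First moment bound for the kernel. -/
theorem sum_ker :
    ∑ A ∈ altF X, (univ.filter (fun z : X → ZMod 2 => z ≠ 0 ∧ A *ᵥ z = 0)).card ≤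
      2 * (altF X).card := by
  have h0 : ∑ A ∈ altF X, (univ.filter (fun z : X → ZMod 2 => z ≠ 0 ∧ A *ᵥ z = 0)).card =
      ∑ z ∈ univ.filter (fun z : X → ZMod 2 => z ≠ 0),
        ((altF X).filter (fun A => A *ᵥ z = 0)).card := by
    simp only [card_filter, sum_filter]
    rw [sum_comm]
    refine sum_congr rfl fun z _ => ?_
    by_cases hz : z ≠ 0 <;> simp [hz]
  have h1 : 0 < 2 ^ Fintype.card X := by positivity
  have h2 : (∑ A ∈ altF X, (univ.filter (fun z : X → ZMod 2 => z ≠ 0 ∧ A *ᵥ z = 0)).card) *
      2 ^ Fintype.card X ≤ (2 * (altF X).card) * 2 ^ Fintype.card X := by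
    rw [h0, sum_mul]
    calc ∑ z ∈ univ.filter (fun z : X → ZMod 2 => z ≠ 0),
        ((altF X).filter (fun A => A *ᵥ z = 0)).card * 2 ^ Fintype.card X
        ≤ ∑ z ∈ univ.filter (fun z : X → ZMod 2 => z ≠ 0), 2 * (altF X).card := by
          refine sum_le_sum fun z hz => ker_count ?_
          simpa using hz
      _ = (univ.filter (fun z : X → ZMod 2 => z ≠ 0)).card * (2 * (altF X).card) := by
          rw [sum_const, smul_eq_mul]
      _ ≤ 2 ^ Fintype.card X * (2 * (altF X).card) := by
          refine Nat.mul_le_mul_right _ ?_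
          refine (card_le_card (filter_subset _ _)).trans ?_
          rw [card_univ, Fintype.card_fun, ZMod.card]
      _ = _ := by ring
  exact Nat.le_of_mul_le_mul_right h2 h1

/-- the nonzero kernel vectors -/
def kerNZ (A : Matrix X X (ZMod 2)) : Finset (X → ZMod 2) :=
  univ.filter (fun z : X → ZMod 2 => z ≠ 0 ∧ A *ᵥ z = 0)

theorem mem_kerNZ {A : Matrix X X (ZMod 2)} {z : X → ZMod 2} :
    z ∈ kerNZ A ↔ z ≠ 0 ∧ A *ᵥ z = 0 := by
  simp [kerNZ]

/-- a large kernel -/
def LargeKer (K : ℕ) (A : Matrix X X (ZMod 2)) : Prop := K ≤ (kerNZ A).card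

/-- some vector of `S` is in the kernel -/
def KerHit (S : Finset (X → ZMod 2)) (A : Matrix X X (ZMod 2)) : Prop := ∃ z ∈ S, A *ᵥ z = 0

/-- Few matrices have a large kernel. -/
theorem large_ker (K : ℕ) :
    ((altF X).filter (LargeKer K)).card * K ≤ 2 * (altF X).card := by
  have h1 : ((altF X).filter (LargeKer K)).card * K ≤
      ∑ A ∈ (altF X).filter (LargeKer K), (kerNZ A).card := by
    rw [← smul_eq_mul, ← sum_const]
    refine sum_le_sum fun A hA => ?_
    have h2 : LargeKer K A := (mem_filter.1 hA).2
    exact h2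
  exact h1.trans ((sum_le_sum_of_subset (filter_subset _ _)).trans sum_ker)

/-- A union bound. -/
theorem ker_union (S : Finset (X → ZMod 2)) (hS : ∀ z ∈ S, z ≠ 0) :
    ((altF X).filter (KerHit S)).card * 2 ^ Fintype.card X ≤
      S.card * (2 * (altF X).card) := by
  have h1 : (altF X).filter (KerHit S) ⊆
      S.biUnion (fun z => (altF X).filter (fun A => A *ᵥ z = 0)) := by
    intro A hA
    simp only [mem_filter, mem_biUnion, KerHit] at hA ⊢
    obtain ⟨h1, z, hz, h2⟩ := hA
    exact ⟨z, hz, h1, h2⟩
  calc _ ≤ (∑ z ∈ S, ((altF X).filter (fun A => A *ᵥ z = 0)).card) * 2 ^ Fintype.card X :=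
        Nat.mul_le_mul_right _ ((card_le_card h1).trans card_biUnion_le)
    _ = ∑ z ∈ S, ((altF X).filter (fun A => A *ᵥ z = 0)).card * 2 ^ Fintype.card X := by
        rw [sum_mul]
    _ ≤ ∑ z ∈ S, 2 * (altF X).card := sum_le_sum fun z hz => ker_count (hS z hz)
    _ = _ := by rw [sum_const, smul_eq_mul]

/-- short nonzero vectors -/
def shortV (X : Type*) [Fintype X] : Finset (X → ZMod 2) :=
  (univ.image (fun i : X => (Pi.single i 1 : X → ZMod 2))) ∪
    ((univ.filter (fun a : X × X => a.1 ≠ a.2)).image
      (fun a => (Pi.single a.1 1 + Pi.single a.2 1 : X → ZMod 2)))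

theorem shortV_ne {z : X → ZMod 2} (hz : z ∈ shortV X) : z ≠ 0 := by
  simp only [shortV, mem_union, mem_image, mem_univ, true_and, mem_filter] at hz
  rcases hz with ⟨i, rfl⟩ | ⟨a, ha, rfl⟩
  · intro h
    have := congrFun h i
    simp at this
  · intro h
    have := congrFun h a.1
    simp [Pi.single_apply, ha] at this

theorem shortV_card : (shortV X).card ≤ Fintype.card X + Fintype.card X ^ 2 := by
  refine (card_union_le _ _).trans (Nat.add_le_add ?_ ?_)
  · exact card_image_le.trans (le_of_eq card_univ)
  · refine card_image_le.trans ((card_le_card (filter_subset _ _)).trans (le_of_eq ?_))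
    rw [card_univ, Fintype.card_prod, sq]

theorem not_goodCols {A : Matrix X X (ZMod 2)} (h : ¬ GoodCols A) :
    ∃ z ∈ shortV X, A *ᵥ z = 0 := by
  have hcol : ∀ i, A *ᵥ (Pi.single i 1) = A.col i := fun i => by simp
  unfold GoodCols at h
  rw [not_and_or] at h
  rcases h with h | h
  · push Not at h
    obtain ⟨i, j, h1, h2⟩ := h
    refine ⟨Pi.single i 1 + Pi.single j 1, ?_, ?_⟩
    · simp only [shortV, mem_union, mem_image, mem_univ, true_and, mem_filter]
      exact Or.inr ⟨(i, j), h2, rfl⟩
    · rw [mulVec_add, hcol, hcol, h1]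
      funext x; exact z2_add_self _
  · push Not at h
    obtain ⟨i, h1⟩ := h
    refine ⟨Pi.single i 1, ?_, ?_⟩
    · simp only [shortV, mem_union, mem_image, mem_univ, true_and]
      exact Or.inl ⟨i, rfl⟩
    · rw [hcol, h1]

theorem single_alt {x y : X} (h : x ≠ y) :
    IsAltM (Matrix.single x y (1 : ZMod 2) + Matrix.single y x 1) where
  symm := by
    rw [transpose_add, transpose_single, transpose_single, add_comm]
  diag z := by
    rw [Matrix.add_apply, Matrix.single_apply, Matrix.single_apply]
    have h1 : ¬ (x = z ∧ y = z) := fun h' => h (h'.1.trans h'.2.symm)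
    have h2 : ¬ (y = z ∧ x = z) := fun h' => h (h'.2.trans h'.1.symm)
    rw [if_neg h1, if_neg h2, add_zero]

theorem flipM_alt {A : Matrix X X (ZMod 2)} (hA : IsAltM A) {x y : X} (h : x ≠ y) :
    IsAltM (flipM A x y) := by
  unfold flipM
  rw [add_assoc]
  exact hA.add (single_alt h)

theorem flipM_flipM (A : Matrix X X (ZMod 2)) (x y : X) : flipM (flipM A x y) x y = A := by
  unfold flipM
  have : A + Matrix.single x y (1 : ZMod 2) + Matrix.single y x 1 + Matrix.single x y 1 +
      Matrix.single y x 1 = A + (Matrix.single x y (1 : ZMod 2) + Matrix.single x y 1) +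
        (Matrix.single y x 1 + Matrix.single y x 1) := by abel
  rw [this, mat_add_self, mat_add_self, add_zero, add_zero]

/-- some flip has equal or zero columns -/
def BadColsP (A : Matrix X X (ZMod 2)) : Prop := ∃ x y, x ≠ y ∧ ¬ GoodCols (flipM A x y)

/-- unit vector -/
def unitV (x : X) : X → ZMod 2 := Pi.single x 1

theorem unitV_apply (x z : X) : unitV x z = if z = x then 1 else 0 := by
  unfold unitV
  rw [Pi.single_apply]

theorem mulVec_unitV {Y : Type*} (M : Matrix Y X (ZMod 2)) (x : X) :
    M *ᵥ unitV x = fun y => M y x := by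
  unfold unitV
  funext y
  simp

/-- the pair `x, y` is critical -/
def CritX (A : Matrix X X (ZMod 2)) (x y : X) : Prop :=
  CritV A (unitV x) (unitV y)

/-- critical pair with the side condition, classical version -/
def CritMX (A : Matrix X X (ZMod 2)) (x y : X) : Prop := CritM A x y

theorem critMX_of {A : Matrix X X (ZMod 2)} (hA : ¬ BadColsP A) {x y : X} (h : x ≠ y)
    (hc : CritX A x y) : CritMX A x y := by
  unfold BadColsP at hA
  push Not at hA
  exact ⟨h, hc, hA x y h⟩

/-- Few matrices have a flip with equal or zero columns. -/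
theorem bad_cols :
    ((altF X).filter BadColsP).card *
      2 ^ Fintype.card X ≤
      Fintype.card X ^ 2 * ((Fintype.card X + Fintype.card X ^ 2) * (2 * (altF X).card)) := by
  have h1 : (altF X).filter BadColsP ⊆
      (univ.filter (fun a : X × X => a.1 ≠ a.2)).biUnion (fun a =>
        (((altF X).filter (KerHit (shortV X))).image
          (fun A => flipM A a.1 a.2))) := by
    intro A hA
    simp only [mem_filter, mem_biUnion, mem_univ, true_and, mem_image, BadColsP] at hA ⊢
    obtain ⟨h1, x, y, h2, h3⟩ := hA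
    obtain ⟨z, hz, h4⟩ := not_goodCols h3
    exact ⟨(x, y), h2, flipM A x y, ⟨mem_altF.2 (flipM_alt (mem_altF.1 h1) h2), z, hz, h4⟩,
      flipM_flipM A x y⟩
  have h2 : ((altF X).filter BadColsP).card ≤
      Fintype.card X ^ 2 *
        ((altF X).filter (KerHit (shortV X))).card := by
    refine (card_le_card h1).trans (card_biUnion_le.trans ?_)
    refine (sum_le_sum (fun a _ => card_image_le)).trans ?_
    rw [sum_const, smul_eq_mul]
    refine Nat.mul_le_mul_right _ ?_
    refine (card_le_card (filter_subset _ _)).trans (le_of_eq ?_)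
    rw [card_univ, Fintype.card_prod, sq]
  calc _ ≤ (Fintype.card X ^ 2 *
        ((altF X).filter (KerHit (shortV X))).card) * 2 ^ Fintype.card X :=
        Nat.mul_le_mul_right _ h2
    _ = Fintype.card X ^ 2 *
        (((altF X).filter (KerHit (shortV X))).card * 2 ^ Fintype.card X) := by
        ring
    _ ≤ Fintype.card X ^ 2 * ((shortV X).card * (2 * (altF X).card)) :=
        Nat.mul_le_mul_left _ (ker_union _ fun z hz => shortV_ne hz)
    _ ≤ _ := Nat.mul_le_mul_left _ (Nat.mul_le_mul_right _ shortV_card)

end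

end

end Run7.h8
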