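import Pool.Agent.Run7.h8.Count1

set_option autoImplicit false
set_option linter.unusedVariables false
set_option linter.unusedSimpArgs false
set_option linter.unusedSectionVars false

namespace Run7.h8

open Matrix Finset Classical

noncomputable section

/-- the fibre of a map -/
def fibF {V W : Type*} [Fintype V] (f : V → W) (w : W) : Finset V :=
  univ.filter (fun v => f v = w)

theorem mem_fibF {V W : Type*} [Fintype V] {f : V → W} {w : W} {v : V} :
    v ∈ fibF f w ↔ f v = w := by
  simp [fibF]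

/-- fibres of a surjective linear map -/
theorem card_fiber {V W : Type*} [AddCommGroup V] [Module (ZMod 2) V] [Fintype V]
    [AddCommGroup W] [Module (ZMod 2) W] [Fintype W] (f : V →ₗ[ZMod 2] W)
    (hf : Function.Surjective f) (w : W) :
    (fibF f w).card * Fintype.card W = Fintype.card V := by
  have key : ∀ w', (fibF f w').card = (fibF f w).card := by
    intro w'
    obtain ⟨v0, hv0⟩ := hf (w' - w)
    refine card_bij' (fun v _ => v - v0) (fun v _ => v + v0) ?_ ?_ ?_ ?_
    · intro v hv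
      rw [mem_fibF] at hv ⊢
      rw [map_sub, hv, hv0]; abel
    · intro v hv
      rw [mem_fibF] at hv ⊢
      rw [map_add, hv, hv0]; abel
    · intro v _; simp
    · intro v _; simp
  have h := card_eq_sum_card_fiberwise (f := f) (s := univ) (t := univ)
    (fun v _ => by simp)
  rw [card_univ] at h
  have h' : Fintype.card V = ∑ w' : W, (fibF f w').card := h
  rw [h', sum_congr rfl (fun w' _ => key w'), sum_const, card_univ, smul_eq_mul, mul_comm]

section

variable {T O : Type*} [Fintype T] [Fintype O]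

/-- rows indexed by `T` -/
def topMap (A : Matrix (T ⊕ O) (T ⊕ O) (ZMod 2)) : (T ⊕ O → ZMod 2) →ₗ[ZMod 2] (T → ZMod 2) :=
  (LinearMap.funLeft (ZMod 2) (ZMod 2) (Sum.inl : T → T ⊕ O)) ∘ₗ A.mulVecLin

theorem topMap_apply (A : Matrix (T ⊕ O) (T ⊕ O) (ZMod 2)) (p : T ⊕ O → ZMod 2) (s : T) :
    topMap A p s = (A *ᵥ p) (Sum.inl s) := rfl

/-- extension by zero -/
def extT (ζ : T → ZMod 2) : T ⊕ O → ZMod 2 := Sum.elim ζ 0

theorem extT_dot (A : Matrix (T ⊕ O) (T ⊕ O) (ZMod 2)) (ζ : T → ZMod 2)
    (q : T ⊕ O → ZMod 2) : extT ζ ⬝ᵥ (A *ᵥ q) = ζ ⬝ᵥ topMap A q := by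
  simp only [dotProduct, Fintype.sum_sum_type, extT, Sum.elim_inl, Sum.elim_inr, Pi.zero_apply,
    zero_mul, sum_const_zero, add_zero, topMap_apply]

/-- no nonzero kernel vector is supported on `T` -/
def TFree (A : Matrix (T ⊕ O) (T ⊕ O) (ZMod 2)) : Prop :=
  ∀ ζ : T → ZMod 2, A *ᵥ (extT ζ) = 0 → ζ = 0

/-- a linear functional on `T → ZMod 2` is a dot product -/
theorem exists_dot (f : (T → ZMod 2) →ₗ[ZMod 2] ZMod 2) :
    ∃ ζ : T → ZMod 2, ∀ v, f v = ζ ⬝ᵥ v := by
  refine ⟨fun s => f (Pi.single s 1), fun v => ?_⟩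
  have hv : v = ∑ s, v s • (Pi.single s 1 : T → ZMod 2) := by
    funext w
    simp [Finset.sum_apply, Pi.single_apply]
  conv_lhs => rw [hv]
  rw [map_sum]
  simp only [dotProduct, map_smul, smul_eq_mul]
  exact sum_congr rfl fun s _ => mul_comm _ _

theorem topMap_surj {A : Matrix (T ⊕ O) (T ⊕ O) (ZMod 2)} (hA : IsAltM A) (hT : TFree A) :
    Function.Surjective (topMap A) := by
  rw [← LinearMap.range_eq_top]
  by_contra h
  obtain ⟨w, -, hw⟩ := SetLike.exists_of_lt (lt_of_le_of_ne le_top h)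
  obtain ⟨f, hf1, hf2⟩ := Submodule.exists_le_ker_of_notMem hw
  obtain ⟨ζ, hζ⟩ := exists_dot f
  have h1 : A *ᵥ (extT ζ) = 0 := by
    funext z
    have h2 : f (topMap A (Pi.single z 1)) = 0 := hf2 ⟨_, rfl⟩
    rw [hζ, ← extT_dot, hA.dot] at h2
    simpa using h2
  apply hf1
  rw [hζ, hT ζ h1, zero_dotProduct]

/-- A functional vanishing on the kernel of `topMap` comes from a vector supported on `T`. -/
theorem exists_ext {A : Matrix (T ⊕ O) (T ⊕ O) (ZMod 2)} (hA : IsAltM A) (hT : TFree A)
    (g : T ⊕ O → ZMod 2) (hg : ∀ q, topMap A q = 0 → g ⬝ᵥ q = 0) :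
    ∃ ζ : T → ZMod 2, g = A *ᵥ (extT ζ) := by
  obtain ⟨σ, hσ⟩ := LinearMap.exists_rightInverse_of_surjective (topMap A)
    (LinearMap.range_eq_top.2 (topMap_surj hA hT))
  have hσ' : ∀ w, topMap A (σ w) = w := fun w => congrArg (fun f => f w) hσ
  let ℓ : (T ⊕ O → ZMod 2) →ₗ[ZMod 2] ZMod 2 :=
    { toFun := fun q => g ⬝ᵥ q
      map_add' := fun a b => dotProduct_add _ _ _
      map_smul' := fun c a => by simp }
  obtain ⟨ζ, hζ⟩ := exists_dot (ℓ ∘ₗ σ)
  refine ⟨ζ, ?_⟩
  have key : ∀ q, g ⬝ᵥ q = (A *ᵥ extT ζ) ⬝ᵥ q := by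
    intro q
    have h1 : g ⬝ᵥ (q - σ (topMap A q)) = 0 := hg _ (by rw [map_sub, hσ', sub_self])
    rw [dotProduct_sub, sub_eq_zero] at h1
    rw [h1, ← hA.dot, extT_dot, ← hζ]
    rfl
  funext z
  simpa using key (Pi.single z 1)

variable (A : Matrix (T ⊕ O) (T ⊕ O) (ZMod 2))

/-- the preimages of the unit vector `t` of `T` -/
def preP (t : T) : Finset (T ⊕ O → ZMod 2) := fibF (topMap A) (Pi.single t 1)

/-- the kernel -/
def kerF : Finset (T ⊕ O → ZMod 2) := univ.filter (fun z => A *ᵥ z = 0)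

variable {A}

theorem mem_preP {t : T} {p : T ⊕ O → ZMod 2} :
    p ∈ preP A t ↔ topMap A p = Pi.single t 1 := mem_fibF

theorem preP_card (hA : IsAltM A) (hT : TFree A) (t : T) :
    (preP A t).card = 2 ^ Fintype.card O := by
  have h := card_fiber (topMap A) (topMap_surj hA hT) (Pi.single t 1)
  rw [Fintype.card_fun, Fintype.card_fun, ZMod.card, Fintype.card_sum, pow_add] at h
  have h0 : 0 < 2 ^ Fintype.card T := by positivity
  refine Nat.eq_of_mul_eq_mul_right h0 ?_
  have h' : (preP A t).card * 2 ^ Fintype.card T =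
      2 ^ Fintype.card T * 2 ^ Fintype.card O := h
  rw [h', mul_comm]

/-- `p` is good if `A p` is not the image of a vector supported on `T`. -/
def badP (A : Matrix (T ⊕ O) (T ⊕ O) (ZMod 2)) : Finset (T ⊕ O → ZMod 2) :=
  univ.filter (fun p => ∃ ζ : T → ZMod 2, A *ᵥ p = A *ᵥ (extT ζ))

theorem badP_card : (badP A).card ≤ (kerF A).card * 2 ^ Fintype.card T := by
  have h1 : badP A ⊆ ((kerF A) ×ˢ (univ : Finset (T → ZMod 2))).image
      (fun a => a.1 + extT a.2) := by
    intro p hp
    simp only [badP, mem_filter, mem_univ, true_and] at hp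
    obtain ⟨ζ, hζ⟩ := hp
    simp only [mem_image, mem_product, mem_univ, and_true, kerF, mem_filter, true_and]
    refine ⟨(p - extT ζ, ζ), ?_, ?_⟩
    · show A *ᵥ (p - extT ζ) = 0
      rw [mulVec_sub, hζ, sub_self]
    · show p - extT ζ + extT ζ = p
      abel
  refine (card_le_card h1).trans (card_image_le.trans (le_of_eq ?_))
  rw [card_product, card_univ, Fintype.card_fun, ZMod.card]

/-- for good `p`, exactly half of the `q` pair to one -/
theorem half (hA : IsAltM A) (hT : TFree A) (t : T) {p : T ⊕ O → ZMod 2}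
    (hp : p ∉ badP A) :
    2 * ((preP A t).filter (fun q => p ⬝ᵥ (A *ᵥ q) = 1)).card = (preP A t).card := by
  have h0 : ∃ q0, topMap A q0 = 0 ∧ (A *ᵥ p) ⬝ᵥ q0 = 1 := by
    by_contra h
    push Not at h
    apply hp
    simp only [badP, mem_filter, mem_univ, true_and]
    refine exists_ext hA hT _ fun q hq => ?_
    rcases z2_cases ((A *ᵥ p) ⬝ᵥ q) with h1 | h1
    · exact h1
    · exact absurd h1 (h q hq)
  obtain ⟨q0, hq0, hq1⟩ := h0
  have h2 : ((preP A t).filter (fun q => p ⬝ᵥ (A *ᵥ q) = 1)).card =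
      ((preP A t).filter (fun q => ¬ p ⬝ᵥ (A *ᵥ q) = 1)).card := by
    have hval : ∀ q, p ⬝ᵥ (A *ᵥ (q + q0)) = p ⬝ᵥ (A *ᵥ q) + 1 := by
      intro q
      rw [mulVec_add, dotProduct_add, hA.dot p q0, hq1]
    have hmem : ∀ q, q ∈ preP A t → q + q0 ∈ preP A t := by
      intro q hq
      rw [mem_preP] at hq ⊢
      rw [map_add, hq, hq0, add_zero]
    have hinv : ∀ q : T ⊕ O → ZMod 2, q + q0 + q0 = q := by
      intro q
      rw [add_assoc, vadd_self, add_zero]
    refine card_bij' (fun q _ => q + q0) (fun q _ => q + q0) ?_ ?_ ?_ ?_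
    · intro q hq
      rw [mem_filter] at hq ⊢
      refine ⟨hmem q hq.1, ?_⟩
      rw [hval, hq.2]; decide
    · intro q hq
      rw [mem_filter] at hq ⊢
      refine ⟨hmem q hq.1, ?_⟩
      rw [hval]
      rcases z2_cases (p ⬝ᵥ (A *ᵥ q)) with h1 | h1
      · rw [h1, zero_add]
      · exact absurd h1 hq.2
    · intro q _; exact hinv q
    · intro q _; exact hinv q
  rw [two_mul]
  nth_rewrite 2 [h2]
  exact card_filter_add_card_filter_not _

/-- the pairs of columns making the pair `t, t'` critical -/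
def goodC (A : Matrix (T ⊕ O) (T ⊕ O) (ZMod 2)) (t t' : T) :
    Finset ((O → ZMod 2) × (O → ZMod 2)) :=
  univ.filter (fun c => CritV A (Sum.elim (Pi.single t 1) c.1) (Sum.elim (Pi.single t' 1) c.2))

theorem goodC_card (hA : IsAltM A) (hT : TFree A) {K : ℕ} (hK : (kerF A).card ≤ K)
    (hsize : 2 * (K * 2 ^ Fintype.card T) ≤ 2 ^ Fintype.card O) (t t' : T) :
    (2 ^ Fintype.card O) ^ 2 ≤ 4 * K ^ 2 * (goodC A t t').card := by
  set N := 2 ^ Fintype.card O with hN
  -- the set of pairs (p, q)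
  let S : Finset ((T ⊕ O → ZMod 2) × (T ⊕ O → ZMod 2)) :=
    (preP A t ×ˢ preP A t').filter (fun a => a.1 ⬝ᵥ (A *ᵥ a.2) = 1)
  have hS1 : N ^ 2 ≤ 4 * S.card := by
    have h1 : ∑ p ∈ preP A t \ badP A,
        ((preP A t').filter (fun q => p ⬝ᵥ (A *ᵥ q) = 1)).card ≤ S.card := by
      have h2 : S.card = ∑ p ∈ preP A t,
          ((preP A t').filter (fun q => p ⬝ᵥ (A *ᵥ q) = 1)).card := by
        simp only [S, card_filter, sum_product]
      rw [h2]
      exact sum_le_sum_of_subset sdiff_subset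
    have h3 : 2 * ∑ p ∈ preP A t \ badP A,
        ((preP A t').filter (fun q => p ⬝ᵥ (A *ᵥ q) = 1)).card =
        (preP A t \ badP A).card * N := by
      rw [mul_sum, sum_congr rfl (fun p hp => half hA hT t' (mem_sdiff.1 hp).2), sum_const,
        smul_eq_mul, preP_card hA hT]
    have h4 : N ≤ 2 * (preP A t \ badP A).card := by
      have h5 : N ≤ (preP A t \ badP A).card + (badP A).card := by
        rw [hN, ← preP_card hA hT t]
        have := card_le_card (show preP A t ⊆ (preP A t \ badP A) ∪ badP A from fun x hx => by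
          by_cases h : x ∈ badP A
          · exact mem_union_right _ h
          · exact mem_union_left _ (mem_sdiff.2 ⟨hx, h⟩))
        exact this.trans (card_union_le _ _)
      have h6 : 2 * (badP A).card ≤ N := by
        refine le_trans ?_ hsize
        refine Nat.mul_le_mul_left _ (badP_card.trans (Nat.mul_le_mul_right _ hK))
      omega
    calc N ^ 2 = N * N := sq N
      _ ≤ (2 * (preP A t \ badP A).card) * N := Nat.mul_le_mul_right _ h4
      _ = 2 * ((preP A t \ badP A).card * N) := by ring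
      _ = 4 * ∑ p ∈ preP A t \ badP A,
        ((preP A t').filter (fun q => p ⬝ᵥ (A *ᵥ q) = 1)).card := by rw [← h3]; ring
      _ ≤ 4 * S.card := Nat.mul_le_mul_left _ h1
  have hS2 : S.card ≤ K ^ 2 * (goodC A t t').card := by
    refine card_le_mul_card_image_of_maps_to
      (f := fun a : (T ⊕ O → ZMod 2) × (T ⊕ O → ZMod 2) =>
        ((fun o => (A *ᵥ a.1) (Sum.inr o), fun o => (A *ᵥ a.2) (Sum.inr o)) :
          (O → ZMod 2) × (O → ZMod 2))) ?_ _ ?_
    · rintro ⟨p, q⟩ h
      simp only [S, mem_filter, mem_product, mem_preP] at h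
      obtain ⟨⟨h1, h2⟩, h3⟩ := h
      simp only [goodC, mem_filter, mem_univ, true_and]
      have e1 : A *ᵥ p = Sum.elim (Pi.single t 1) (fun o => (A *ᵥ p) (Sum.inr o)) := by
        funext z
        rcases z with s | o
        · exact congrFun h1 s
        · rfl
      have e2 : A *ᵥ q = Sum.elim (Pi.single t' 1) (fun o => (A *ᵥ q) (Sum.inr o)) := by
        funext z
        rcases z with s | o
        · exact congrFun h2 s
        · rfl
      exact ⟨p, q, e1, e2, by rw [← e2]; exact h3⟩
    · intro c hc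
      -- the fibre injects in ker × ker
      rcases ((S.filter (fun a : (T ⊕ O → ZMod 2) × (T ⊕ O → ZMod 2) =>
        ((fun o => (A *ᵥ a.1) (Sum.inr o), fun o => (A *ᵥ a.2) (Sum.inr o)) :
          (O → ZMod 2) × (O → ZMod 2)) = c)).eq_empty_or_nonempty) with he | ⟨⟨p0, q0⟩, h0⟩
      · rw [he]; simp
      · have hle : (S.filter (fun a : (T ⊕ O → ZMod 2) × (T ⊕ O → ZMod 2) =>
          ((fun o => (A *ᵥ a.1) (Sum.inr o), fun o => (A *ᵥ a.2) (Sum.inr o)) :
            (O → ZMod 2) × (O → ZMod 2)) = c)).card ≤ (kerF A ×ˢ kerF A).card := by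
          refine card_le_card_of_injOn (fun a => (a.1 - p0, a.2 - q0)) ?_ ?_
          · rintro ⟨p, q⟩ h
            simp only [S, coe_filter, Set.mem_ofPred_eq, mem_filter, mem_product, mem_preP] at h h0
            obtain ⟨⟨⟨h1, h2⟩, -⟩, h3⟩ := h
            obtain ⟨⟨⟨k1, k2⟩, -⟩, k3⟩ := h0
            have h4 := h3.trans k3.symm
            simp only [Prod.mk.injEq] at h4
            simp only [coe_product, Set.mem_prod, mem_coe, kerF, mem_filter, mem_univ, true_and]
            constructor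
            · rw [mulVec_sub, sub_eq_zero]
              funext z
              rcases z with s | o
              · exact (congrFun h1 s).trans (congrFun k1 s).symm
              · exact congrFun h4.1 o
            · rw [mulVec_sub, sub_eq_zero]
              funext z
              rcases z with s | o
              · exact (congrFun h2 s).trans (congrFun k2 s).symm
              · exact congrFun h4.2 o
          · rintro ⟨p, q⟩ - ⟨p', q'⟩ - h
            simp only [Prod.mk.injEq, sub_left_inj] at h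
            rw [h.1, h.2]
        refine hle.trans ?_
        rw [card_product, sq]
        exact Nat.mul_le_mul hK hK
  calc N ^ 2 ≤ 4 * S.card := hS1
    _ ≤ 4 * (K ^ 2 * (goodC A t t').card) := Nat.mul_le_mul_left _ hS2
    _ = _ := by ring

end

end

end Run7.h8
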