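import Pool.Agent.Run7.h8.Count2

set_option autoImplicit false
set_option linter.unusedVariables false
set_option linter.unusedSimpArgs false
set_option linter.unusedSectionVars false

namespace Run7.h8

open Matrix Finset Classical

noncomputable section

section Action

variable {T O : Type*} [Fintype T] [Fintype O]

/-- the unipotent matrix adding the rows of `T` to the rows of `O` -/
def uni (C : T → O → ZMod 2) : Matrix (T ⊕ O) (T ⊕ O) (ZMod 2) :=
  fromBlocks 1 0 (Matrix.of fun o t => C t o) 1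

theorem uni_mul_uni (C : T → O → ZMod 2) : uni C * uni C = 1 := by
  unfold uni
  rw [fromBlocks_multiply]
  simp only [Matrix.one_mul, Matrix.mul_one, Matrix.zero_mul, Matrix.mul_zero, add_zero, zero_add]
  have : (Matrix.of fun o t => C t o) + (Matrix.of fun o t => C t o) =
      (0 : Matrix O T (ZMod 2)) := by
    ext o t; exact z2_add_self _
  rw [this, fromBlocks_one]

theorem uniT_mul_uniT (C : T → O → ZMod 2) : (uni C)ᵀ * (uni C)ᵀ = 1 := by
  rw [← transpose_mul, uni_mul_uni, transpose_one]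

/-- the action -/
def act (C : T → O → ZMod 2) (A : Matrix (T ⊕ O) (T ⊕ O) (ZMod 2)) :
    Matrix (T ⊕ O) (T ⊕ O) (ZMod 2) := uni C * A * (uni C)ᵀ

theorem act_alt {A : Matrix (T ⊕ O) (T ⊕ O) (ZMod 2)} (hA : IsAltM A) (C : T → O → ZMod 2) :
    IsAltM (act C A) where
  symm := by
    unfold act
    rw [transpose_mul, transpose_mul, transpose_transpose, hA.symm, Matrix.mul_assoc]
  diag x := by
    unfold act
    rw [Matrix.mul_mul_apply, transpose_transpose]
    exact hA.quad _

theorem act_act (C : T → O → ZMod 2) (A : Matrix (T ⊕ O) (T ⊕ O) (ZMod 2)) :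
    act C (act C A) = A := by
  unfold act
  calc uni C * (uni C * A * (uni C)ᵀ) * (uni C)ᵀ
      = (uni C * uni C) * A * ((uni C)ᵀ * (uni C)ᵀ) := by simp only [Matrix.mul_assoc]
    _ = A := by rw [uni_mul_uni, uniT_mul_uniT, Matrix.one_mul, Matrix.mul_one]

theorem uni_row_inl (C : T → O → ZMod 2) (s : T) :
    uni C (Sum.inl s) = Pi.single (Sum.inl s) 1 := by
  funext z
  rcases z with t | o
  · simp only [uni, fromBlocks_apply₁₁, Matrix.one_apply, Pi.single_apply]
    by_cases h : s = t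
    · subst h; simp
    · have : ¬ (Sum.inl t : T ⊕ O) = Sum.inl s := fun h' => h (Sum.inl_injective h').symm
      simp [h, this]
  · simp [uni]

theorem act_inl (C : T → O → ZMod 2) (A : Matrix (T ⊕ O) (T ⊕ O) (ZMod 2)) (s t : T) :
    act C A (Sum.inl s) (Sum.inl t) = A (Sum.inl s) (Sum.inl t) := by
  unfold act
  rw [Matrix.mul_mul_apply, transpose_transpose, uni_row_inl, uni_row_inl]
  simp

theorem uni_mulVec_inl (C : T → O → ZMod 2) (t : T) :
    uni C *ᵥ (unitV (Sum.inl t)) = Sum.elim (Pi.single t 1) (C t) := by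
  rw [mulVec_unitV]
  funext z
  rcases z with s | o
  · simp only [uni, Matrix.col_apply, fromBlocks_apply₁₁, Matrix.one_apply, Sum.elim_inl,
      Pi.single_apply]
  · simp [uni]

theorem crit_act {A : Matrix (T ⊕ O) (T ⊕ O) (ZMod 2)} (C : T → O → ZMod 2) {t t' : T}
    (h : CritV A (Sum.elim (Pi.single t 1) (C t)) (Sum.elim (Pi.single t' 1) (C t'))) :
    CritX (act C A) (Sum.inl t) (Sum.inl t') := by
  unfold CritX
  obtain ⟨p, q, hp, hq, hpq⟩ := h
  rw [← uni_mulVec_inl] at hp hq hpq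
  have key : ∀ r, act C A *ᵥ ((uni C)ᵀ *ᵥ r) = uni C *ᵥ (A *ᵥ r) := by
    intro r
    unfold act
    rw [mulVec_mulVec, Matrix.mul_assoc, Matrix.mul_assoc, uniT_mul_uniT, Matrix.mul_one,
      mulVec_mulVec]
  refine ⟨(uni C)ᵀ *ᵥ p, (uni C)ᵀ *ᵥ q, ?_, ?_, ?_⟩
  · rw [key, hp, mulVec_mulVec, uni_mul_uni, one_mulVec]
  · rw [key, hq, mulVec_mulVec, uni_mul_uni, one_mulVec]
  · refine Eq.trans ?_ hpq
    rw [dotProduct_comm, dotProduct_mulVec, vecMul_transpose, dotProduct_comm]

end Action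

section Main

variable {ι O : Type*} [Fintype ι] [Fintype O]

/-- The entry of the `i`-th pair. -/
def ent (A : Matrix ((ι × Bool) ⊕ O) ((ι × Bool) ⊕ O) (ZMod 2)) (i : ι) : ZMod 2 :=
  A (Sum.inl (i, false)) (Sum.inl (i, true))

/-- the `i`-th pair is critical -/
def critI (A : Matrix ((ι × Bool) ⊕ O) ((ι × Bool) ⊕ O) (ZMod 2)) (i : ι) : Prop :=
  CritX A (Sum.inl (i, false)) (Sum.inl (i, true))

/-- no critical pair with entry `b` -/
def noCrit (b : ZMod 2) (A : Matrix ((ι × Bool) ⊕ O) ((ι × Bool) ⊕ O) (ZMod 2)) : Prop :=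
  ∀ i, ent A i = b → ¬ critI A i

/-- the pairs with entry `b` -/
def entF (b : ZMod 2) (A : Matrix ((ι × Bool) ⊕ O) ((ι × Bool) ⊕ O) (ZMod 2)) : Finset ι :=
  univ.filter (fun i => ent A i = b)

theorem ent_act (C : ι × Bool → O → ZMod 2)
    (A : Matrix ((ι × Bool) ⊕ O) ((ι × Bool) ⊕ O) (ZMod 2)) (i : ι) :
    ent (act C A) i = ent A i := act_inl _ _ _ _

/-- For a nice matrix, few actions leave no critical pair. -/
theorem few_C {A : Matrix ((ι × Bool) ⊕ O) ((ι × Bool) ⊕ O) (ZMod 2)} (hA : IsAltM A)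
    (hT : TFree A) {K : ℕ} (hK0 : 0 < K) (hK : (kerF A).card ≤ K)
    (hsize : 2 * (K * 2 ^ Fintype.card (ι × Bool)) ≤ 2 ^ Fintype.card O) (b : ZMod 2) :
    ((univ.filter (fun C : ι × Bool → O → ZMod 2 => noCrit b (act C A))).card : ℝ) ≤
      Fintype.card (ι × Bool → O → ZMod 2) * (1 - 1 / (4 * (K : ℝ) ^ 2)) ^ (entF b A).card := by
  set N := 2 ^ Fintype.card O with hN
  have h1 : (univ.filter (fun C : ι × Bool → O → ZMod 2 => noCrit b (act C A))).card ≤
      (Fintype.piFinset (fun i : ι => if i ∈ entF b A then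
        (goodC A (i, false) (i, true))ᶜ else
          (univ : Finset ((O → ZMod 2) × (O → ZMod 2))))).card := by
    refine card_le_card_of_injOn (fun C i => (C (i, false), C (i, true))) ?_ ?_
    · intro C hC
      simp only [coe_filter, mem_univ, true_and, Set.mem_ofPred_eq] at hC
      rw [mem_coe, Fintype.mem_piFinset]
      intro i
      by_cases hi : i ∈ entF b A
      · rw [if_pos hi, mem_compl]
        intro hg
        simp only [goodC, mem_filter, mem_univ, true_and] at hg
        refine hC i ?_ (crit_act C hg)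
        rw [ent_act]
        simpa [entF] using hi
      · rw [if_neg hi]; exact mem_univ _
    · intro C _ C' _ h
      funext ⟨i, a⟩
      have := congrFun h i
      simp only [Prod.mk.injEq] at this
      cases a
      · exact this.1
      · exact this.2
  have hcardΓ : (Fintype.card (ι × Bool → O → ZMod 2) : ℝ) = ((N : ℝ) ^ 2) ^ Fintype.card ι := by
    rw [Fintype.card_fun, Fintype.card_fun, ZMod.card, Fintype.card_prod, Fintype.card_bool,
      ← pow_mul]
    push_cast
    rw [hN]; push_cast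
    ring
  have hN0 : (0 : ℝ) < N := by rw [hN]; positivity
  have h2 : ∀ i : ι, ((if i ∈ entF b A then
        (goodC A (i, false) (i, true))ᶜ else
          (univ : Finset ((O → ZMod 2) × (O → ZMod 2)))).card : ℝ) ≤
      (N : ℝ) ^ 2 * (if i ∈ entF b A then (1 - 1 / (4 * (K : ℝ) ^ 2)) else 1) := by
    intro i
    have hcardU : (Fintype.card ((O → ZMod 2) × (O → ZMod 2)) : ℝ) = (N : ℝ) ^ 2 := by
      rw [Fintype.card_prod, Fintype.card_fun, ZMod.card, sq, hN]; push_cast; ring
    by_cases hi : i ∈ entF b A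
    · rw [if_pos hi, if_pos hi, card_compl, Nat.cast_sub (card_le_univ _), hcardU]
      have h3 := goodC_card hA hT hK hsize (i, false) (i, true)
      have h4 : ((N : ℝ)) ^ 2 ≤ 4 * (K : ℝ) ^ 2 * ((goodC A (i, false) (i, true)).card : ℝ) := by
        exact_mod_cast h3
      have hK' : (0 : ℝ) < 4 * (K : ℝ) ^ 2 := by positivity
      have h5 : (N : ℝ) ^ 2 / (4 * (K : ℝ) ^ 2) ≤ ((goodC A (i, false) (i, true)).card : ℝ) := by
        rw [div_le_iff₀ hK']; linarith
      have h6 : (N : ℝ) ^ 2 * (1 - 1 / (4 * (K : ℝ) ^ 2)) =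
          (N : ℝ) ^ 2 - (N : ℝ) ^ 2 / (4 * (K : ℝ) ^ 2) := by ring
      rw [h6]; linarith
    · rw [if_neg hi, if_neg hi, card_univ, hcardU, mul_one]
  calc ((univ.filter (fun C : ι × Bool → O → ZMod 2 => noCrit b (act C A))).card : ℝ)
      ≤ ((Fintype.piFinset (fun i : ι => if i ∈ entF b A then
        (goodC A (i, false) (i, true))ᶜ else
          (univ : Finset ((O → ZMod 2) × (O → ZMod 2))))).card : ℝ) := by exact_mod_cast h1
    _ = ∏ i : ι, ((if i ∈ entF b A then
        (goodC A (i, false) (i, true))ᶜ else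
          (univ : Finset ((O → ZMod 2) × (O → ZMod 2)))).card : ℝ) := by
        rw [Fintype.card_piFinset]; push_cast; rfl
    _ ≤ ∏ i : ι, (N : ℝ) ^ 2 * (if i ∈ entF b A then (1 - 1 / (4 * (K : ℝ) ^ 2)) else 1) :=
        prod_le_prod (fun i _ => Nat.cast_nonneg _) (fun i _ => h2 i)
    _ = _ := by
        rw [prod_mul_distrib, prod_const, card_univ, hcardΓ, prod_ite_mem, univ_inter,
          prod_const]

/-- the correction matrices -/
def corr (ε : ι → ZMod 2) : Matrix ((ι × Bool) ⊕ O) ((ι × Bool) ⊕ O) (ZMod 2) :=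
  fromBlocks (Matrix.of fun s t => if s.1 = t.1 ∧ s.2 ≠ t.2 then ε s.1 else 0) 0 0 0

theorem corr_alt (ε : ι → ZMod 2) : IsAltM (corr (O := O) ε) where
  symm := by
    unfold corr
    rw [fromBlocks_transpose]
    simp only [transpose_zero]
    congr 1
    ext s t
    simp only [transpose_apply, of_apply]
    by_cases h : s.1 = t.1 ∧ s.2 ≠ t.2
    · rw [if_pos h, if_pos ⟨h.1.symm, h.2.symm⟩, h.1]
    · rw [if_neg h, if_neg (fun h' => h ⟨h'.1.symm, h'.2.symm⟩)]
  diag x := by
    rcases x with s | o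
    · simp [corr]
    · simp [corr]

theorem ent_corr (ε : ι → ZMod 2) (A : Matrix ((ι × Bool) ⊕ O) ((ι × Bool) ⊕ O) (ZMod 2))
    (i : ι) : ent (A + corr ε) i = ent A i + ε i := by
  simp [ent, corr]

/-- The entries of the pairs are independent fair bits. -/
theorem sum_ent (b : ZMod 2) (δ : ℝ) :
    ∑ A ∈ altF ((ι × Bool) ⊕ O), (1 - δ) ^ (entF b A).card =
      (altF ((ι × Bool) ⊕ O)).card * (1 - δ / 2) ^ Fintype.card ι := by
  have hf : ∀ A : Matrix ((ι × Bool) ⊕ O) ((ι × Bool) ⊕ O) (ZMod 2),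
      (1 - δ) ^ (entF b A).card = ∏ i, (if ent A i = b then 1 - δ else 1) := by
    intro A
    rw [prod_ite, prod_const, prod_const_one, mul_one]; rfl
  have h1 : ∀ ε : ι → ZMod 2, ∑ A ∈ altF ((ι × Bool) ⊕ O), (1 - δ) ^ (entF b A).card =
      ∑ A ∈ altF ((ι × Bool) ⊕ O), (1 - δ) ^ (entF b (A + corr ε)).card := by
    intro ε
    have hinv : ∀ A : Matrix ((ι × Bool) ⊕ O) ((ι × Bool) ⊕ O) (ZMod 2),
        A + corr ε + corr ε = A := fun A => by rw [add_assoc, mat_add_self, add_zero]
    refine sum_bij' (fun A _ => A + corr ε) (fun A _ => A + corr ε) ?_ ?_ ?_ ?_ ?_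
    · intro A hA; exact mem_altF.2 ((mem_altF.1 hA).add (corr_alt ε))
    · intro A hA; exact mem_altF.2 ((mem_altF.1 hA).add (corr_alt ε))
    · intro A _; exact hinv A
    · intro A _; exact hinv A
    · intro A _; rw [hinv A]
  have h2 : ∀ A : Matrix ((ι × Bool) ⊕ O) ((ι × Bool) ⊕ O) (ZMod 2),
      ∑ ε : ι → ZMod 2, (1 - δ) ^ (entF b (A + corr ε)).card = (2 - δ) ^ Fintype.card ι := by
    intro A
    have h3 : ∀ ε : ι → ZMod 2, (1 - δ) ^ (entF b (A + corr ε)).card =
        ∏ i, (if ent A i + ε i = b then 1 - δ else 1) := by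
      intro ε
      rw [hf]
      exact prod_congr rfl fun i _ => by rw [ent_corr]
    simp_rw [h3]
    have h4 := Finset.prod_univ_sum (fun _ : ι => (univ : Finset (ZMod 2)))
      (fun i e => (if ent A i + e = b then 1 - δ else 1))
    rw [Fintype.piFinset_univ] at h4
    rw [← h4]
    have h5 : ∀ i : ι, ∑ e : ZMod 2, (if ent A i + e = b then 1 - δ else 1) = 2 - δ := by
      intro i
      have h6 : ∀ a b : ZMod 2, ∑ e : ZMod 2, (if a + e = b then 1 - δ else 1) = 2 - δ := by
        intro a b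
        have h7 : (univ : Finset (ZMod 2)) = {0, 1} := rfl
        rw [h7, sum_pair (by decide)]
        rcases z2_cases a with ha | ha <;> rcases z2_cases b with hb | hb <;> subst ha <;>
          subst hb
        · rw [if_pos (by decide), if_neg (by decide)]; ring
        · rw [if_neg (by decide), if_pos (by decide)]; ring
        · rw [if_neg (by decide), if_pos (by decide)]; ring
        · rw [if_pos (by decide), if_neg (by decide)]; ring
      exact h6 _ _
    rw [prod_congr rfl (fun i _ => h5 i), prod_const, card_univ]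
  have h8 : (2 : ℝ) ^ Fintype.card ι *
      ∑ A ∈ altF ((ι × Bool) ⊕ O), (1 - δ) ^ (entF b A).card =
      (altF ((ι × Bool) ⊕ O)).card * (2 - δ) ^ Fintype.card ι := by
    calc (2 : ℝ) ^ Fintype.card ι *
      ∑ A ∈ altF ((ι × Bool) ⊕ O), (1 - δ) ^ (entF b A).card
        = ∑ ε : ι → ZMod 2, ∑ A ∈ altF ((ι × Bool) ⊕ O), (1 - δ) ^ (entF b A).card := by
          rw [sum_const, card_univ, Fintype.card_fun, ZMod.card, nsmul_eq_mul]; push_cast; rfl
      _ = ∑ ε : ι → ZMod 2, ∑ A ∈ altF ((ι × Bool) ⊕ O),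
            (1 - δ) ^ (entF b (A + corr ε)).card := sum_congr rfl fun ε _ => h1 ε
      _ = ∑ A ∈ altF ((ι × Bool) ⊕ O), ∑ ε : ι → ZMod 2,
            (1 - δ) ^ (entF b (A + corr ε)).card := sum_comm
      _ = ∑ A ∈ altF ((ι × Bool) ⊕ O), (2 - δ) ^ Fintype.card ι :=
          sum_congr rfl fun A _ => h2 A
      _ = _ := by rw [sum_const, nsmul_eq_mul]
  have h9 : (2 - δ) ^ Fintype.card ι = 2 ^ Fintype.card ι * (1 - δ / 2) ^ Fintype.card ι := by
    rw [← mul_pow]; congr 1; ring
  rw [h9] at h8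
  have h10 : (2 : ℝ) ^ Fintype.card ι ≠ 0 := by positivity
  have h11 : (2 : ℝ) ^ Fintype.card ι *
      ∑ A ∈ altF ((ι × Bool) ⊕ O), (1 - δ) ^ (entF b A).card =
      (2 : ℝ) ^ Fintype.card ι *
        ((altF ((ι × Bool) ⊕ O)).card * (1 - δ / 2) ^ Fintype.card ι) := by
    rw [h8]; ring
  exact mul_left_cancel₀ h10 h11

end Main

end

end Run7.h8
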