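import Pool.Agent.Run7.h8.Count3

set_option autoImplicit false
set_option linter.unusedVariables false
set_option linter.unusedSimpArgs false
set_option linter.unusedSectionVars false

namespace Run7.h8

open Matrix Finset Classical

noncomputable section

section

variable {ι O : Type*} [Fintype ι] [Fintype O]

theorem real_div1 {a s K : ℕ} (hK : 0 < K) (h : s * K ≤ 2 * a) :
    (s : ℝ) ≤ 2 * a / K := by
  have hK' : (0 : ℝ) < K := by exact_mod_cast hK
  rw [le_div_iff₀ hK']; exact_mod_cast h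

theorem real_div2 {a s k t : ℕ} (h : s * 2 ^ k ≤ 2 ^ t * (2 * a)) :
    (s : ℝ) ≤ 2 ^ t * (2 * a) / 2 ^ k := by
  have hp : (0 : ℝ) < 2 ^ k := by positivity
  rw [le_div_iff₀ hp]; exact_mod_cast h

theorem noCrit_sum (b : ZMod 2) :
    Fintype.card (ι × Bool → O → ZMod 2) *
      ((altF ((ι × Bool) ⊕ O)).filter (noCrit b)).card =
    ∑ A ∈ altF ((ι × Bool) ⊕ O),
      (univ.filter (fun C : ι × Bool → O → ZMod 2 => noCrit b (act C A))).card := by
  have h1 : ∀ C : ι × Bool → O → ZMod 2,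
      ((altF ((ι × Bool) ⊕ O)).filter (fun A => noCrit b (act C A))).card =
        ((altF ((ι × Bool) ⊕ O)).filter (noCrit b)).card := by
    intro C
    refine card_bij' (fun A _ => act C A) (fun A _ => act C A) ?_ ?_ ?_ ?_
    · intro A hA
      rw [mem_filter] at hA ⊢
      exact ⟨mem_altF.2 (act_alt (mem_altF.1 hA.1) C), hA.2⟩
    · intro A hA
      rw [mem_filter] at hA ⊢
      exact ⟨mem_altF.2 (act_alt (mem_altF.1 hA.1) C), by rw [act_act]; exact hA.2⟩
    · intro A _; exact act_act C A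
    · intro A _; exact act_act C A
  calc _ = ∑ C : ι × Bool → O → ZMod 2,
        ((altF ((ι × Bool) ⊕ O)).filter (fun A => noCrit b (act C A))).card := by
        rw [sum_congr rfl (fun C _ => h1 C), sum_const, card_univ, smul_eq_mul]
    _ = _ := by
        simp only [card_filter]
        rw [sum_comm]

/-- nice matrices -/
def nice (K : ℕ) (A : Matrix ((ι × Bool) ⊕ O) ((ι × Bool) ⊕ O) (ZMod 2)) : Prop :=
  TFree A ∧ (kerF A).card ≤ K

theorem noCrit_bound {K : ℕ} (hK0 : 0 < K)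
    (hsize : 2 * (K * 2 ^ Fintype.card (ι × Bool)) ≤ 2 ^ Fintype.card O) (b : ZMod 2) :
    (((altF ((ι × Bool) ⊕ O)).filter (noCrit b)).card : ℝ) ≤
      ((altF ((ι × Bool) ⊕ O)).filter (fun A => ¬ nice K A)).card +
      (altF ((ι × Bool) ⊕ O)).card * (1 - (1 / (4 * (K : ℝ) ^ 2)) / 2) ^ Fintype.card ι := by
  set Γ := Fintype.card (ι × Bool → O → ZMod 2) with hΓ
  have hΓ0 : (0 : ℝ) < Γ := by
    rw [hΓ]; exact_mod_cast Fintype.card_pos
  have hδ : (0 : ℝ) ≤ 1 - 1 / (4 * (K : ℝ) ^ 2) := by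
    have : (1 : ℝ) ≤ K := by exact_mod_cast hK0
    have h4 : (1 : ℝ) ≤ 4 * (K : ℝ) ^ 2 := by nlinarith
    have : 1 / (4 * (K : ℝ) ^ 2) ≤ 1 := by
      rw [div_le_one (by linarith)]; exact h4
    linarith
  have h1 : (Γ : ℝ) * ((altF ((ι × Bool) ⊕ O)).filter (noCrit b)).card ≤
      Γ * (((altF ((ι × Bool) ⊕ O)).filter (fun A => ¬ nice K A)).card +
      ∑ A ∈ altF ((ι × Bool) ⊕ O), (1 - 1 / (4 * (K : ℝ) ^ 2)) ^ (entF b A).card) := by
    have h2 : (Γ : ℝ) * ((altF ((ι × Bool) ⊕ O)).filter (noCrit b)).card =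
        ∑ A ∈ altF ((ι × Bool) ⊕ O),
      ((univ.filter (fun C : ι × Bool → O → ZMod 2 => noCrit b (act C A))).card : ℝ) := by
      rw [hΓ]; exact_mod_cast noCrit_sum (ι := ι) (O := O) b
    rw [h2]
    have h3 : ∀ A ∈ altF ((ι × Bool) ⊕ O),
        ((univ.filter (fun C : ι × Bool → O → ZMod 2 => noCrit b (act C A))).card : ℝ) ≤
        (if ¬ nice K A then (Γ : ℝ) else 0) +
          Γ * (1 - 1 / (4 * (K : ℝ) ^ 2)) ^ (entF b A).card := by
      intro A hA
      by_cases hn : nice K A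
      · rw [if_neg (not_not.2 hn), zero_add]
        exact few_C (mem_altF.1 hA) hn.1 hK0 hn.2 hsize b
      · rw [if_pos hn]
        have : ((univ.filter (fun C : ι × Bool → O → ZMod 2 => noCrit b (act C A))).card : ℝ) ≤
            Γ := by
          rw [hΓ]; exact_mod_cast card_le_univ _
        have h0 : (0 : ℝ) ≤ Γ * (1 - 1 / (4 * (K : ℝ) ^ 2)) ^ (entF b A).card :=
          mul_nonneg hΓ0.le (pow_nonneg hδ _)
        linarith
    refine (sum_le_sum h3).trans (le_of_eq ?_)
    rw [sum_add_distrib, ← mul_sum, mul_add]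
    congr 1
    rw [← sum_filter, sum_const, nsmul_eq_mul, mul_comm]
  have h5 := le_of_mul_le_mul_left h1 hΓ0
  rw [sum_ent] at h5
  exact h5

theorem extT_inj {T O : Type*} {ζ ζ' : T → ZMod 2} (h : (extT ζ : T ⊕ O → ZMod 2) = extT ζ') :
    ζ = ζ' := by
  funext t
  exact congrFun h (Sum.inl t)

theorem not_nice_bound {K : ℕ} (hK0 : 0 < K) :
    (((altF ((ι × Bool) ⊕ O)).filter (fun A => ¬ nice K A)).card : ℝ) ≤
      (altF ((ι × Bool) ⊕ O)).card * (2 / K + 2 * 2 ^ Fintype.card (ι × Bool) /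
        2 ^ Fintype.card ((ι × Bool) ⊕ O)) := by
  let S : Finset ((ι × Bool) ⊕ O → ZMod 2) :=
    ((univ.filter (fun ζ : ι × Bool → ZMod 2 => ζ ≠ 0)).image extT)
  have hS : ∀ z ∈ S, z ≠ 0 := by
    intro z hz
    simp only [S, mem_image, mem_filter, mem_univ, true_and] at hz
    obtain ⟨ζ, h1, rfl⟩ := hz
    intro h2
    apply h1
    apply extT_inj (O := O)
    rw [h2]
    funext x
    rcases x with x | x <;> rfl
  have hScard : S.card ≤ 2 ^ Fintype.card (ι × Bool) := by
    refine card_image_le.trans ((card_le_card (filter_subset _ _)).trans (le_of_eq ?_))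
    rw [card_univ, Fintype.card_fun, ZMod.card]
  have h1 := ker_union S hS
  have h2 := large_ker (X := (ι × Bool) ⊕ O) K
  have hsub : (altF ((ι × Bool) ⊕ O)).filter (fun A => ¬ nice K A) ⊆
      ((altF ((ι × Bool) ⊕ O)).filter (KerHit S)) ∪
      ((altF ((ι × Bool) ⊕ O)).filter (LargeKer K)) := by
    intro A hA
    rw [mem_filter] at hA
    rw [mem_union, mem_filter, mem_filter]
    obtain ⟨hA1, hA2⟩ := hA
    unfold nice at hA2
    rw [not_and_or] at hA2
    rcases hA2 with h | h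
    · left
      refine ⟨hA1, ?_⟩
      unfold TFree at h
      push Not at h
      obtain ⟨ζ, h3, h4⟩ := h
      refine ⟨extT ζ, ?_, h3⟩
      simp only [S, mem_image, mem_filter, mem_univ, true_and]
      exact ⟨ζ, h4, rfl⟩
    · right
      refine ⟨hA1, ?_⟩
      push Not at h
      have h5 : kerF A ⊆ insert 0 (kerNZ A) := by
        intro z hz
        simp only [kerF, mem_filter, mem_univ, true_and] at hz
        rw [mem_insert, mem_kerNZ]
        by_cases h0 : z = 0
        · exact Or.inl h0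
        · exact Or.inr ⟨h0, hz⟩
      have h6 := (card_le_card h5).trans (card_insert_le _ _)
      unfold LargeKer
      omega
  have hle := (card_le_card hsub).trans (card_union_le _ _)
  have h3 : ((altF ((ι × Bool) ⊕ O)).filter (KerHit S)).card *
      2 ^ Fintype.card ((ι × Bool) ⊕ O) ≤
      2 ^ Fintype.card (ι × Bool) * (2 * (altF ((ι × Bool) ⊕ O)).card) :=
    h1.trans (Nat.mul_le_mul_right _ hScard)
  have h2' := real_div1 hK0 h2
  have h1' := real_div2 h3
  have hle' := (Nat.cast_le (α := ℝ)).2 hle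
  rw [Nat.cast_add] at hle'
  refine hle'.trans ((add_le_add h1' h2').trans (le_of_eq ?_))
  ring

/-- matrices without the required critical pairs -/
def badM {X : Type*} [Fintype X] (A : Matrix X X (ZMod 2)) : Prop :=
  ¬ ((∃ x y, CritMX A x y ∧ A x y = 1) ∧ (∃ x y, CritMX A x y ∧ A x y = 0))

theorem badM_sub {A : Matrix ((ι × Bool) ⊕ O) ((ι × Bool) ⊕ O) (ZMod 2)}
    (h : badM A) : noCrit 1 A ∨ noCrit 0 A ∨ BadColsP A := by
  by_contra hc
  rw [not_or, not_or] at hc
  obtain ⟨h1, h0, hg⟩ := hc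
  apply h
  unfold noCrit at h1 h0
  push Not at h1 h0
  have hne : ∀ i : ι, (Sum.inl (i, false) : (ι × Bool) ⊕ O) ≠ Sum.inl (i, true) := by
    intro i h
    have := Sum.inl_injective h
    simp at this
  have hcrit : ∀ i, critI A i → CritMX A (Sum.inl (i, false)) (Sum.inl (i, true)) :=
    fun i hi => critMX_of hg (hne i) hi
  constructor
  · obtain ⟨i, hi1, hi2⟩ := h1
    exact ⟨_, _, hcrit i hi2, hi1⟩
  · obtain ⟨i, hi1, hi2⟩ := h0
    exact ⟨_, _, hcrit i hi2, hi1⟩

/-- Bound for the proportion of bad matrices. -/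
theorem badM_bound {K : ℕ} (hK0 : 0 < K)
    (hsize : 2 * (K * 2 ^ Fintype.card (ι × Bool)) ≤ 2 ^ Fintype.card O) :
    (((altF ((ι × Bool) ⊕ O)).filter badM).card : ℝ) ≤
      (altF ((ι × Bool) ⊕ O)).card * (
        2 * ((2 / K + 2 * 2 ^ Fintype.card (ι × Bool) /
          2 ^ Fintype.card ((ι × Bool) ⊕ O)) +
          (1 - (1 / (4 * (K : ℝ) ^ 2)) / 2) ^ Fintype.card ι) +
        (Fintype.card ((ι × Bool) ⊕ O) : ℝ) ^ 2 * ((Fintype.card ((ι × Bool) ⊕ O) : ℝ) +
          (Fintype.card ((ι × Bool) ⊕ O) : ℝ) ^ 2) * 2 /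
            2 ^ Fintype.card ((ι × Bool) ⊕ O)) := by
  have hsub : (altF ((ι × Bool) ⊕ O)).filter badM ⊆
      ((altF ((ι × Bool) ⊕ O)).filter (noCrit 1) ∪
        (altF ((ι × Bool) ⊕ O)).filter (noCrit 0)) ∪
      (altF ((ι × Bool) ⊕ O)).filter BadColsP := by
    intro A hA
    rw [mem_filter] at hA
    rw [mem_union, mem_union, mem_filter, mem_filter, mem_filter]
    rcases badM_sub hA.2 with h | h | h
    · exact Or.inl (Or.inl ⟨hA.1, h⟩)
    · exact Or.inl (Or.inr ⟨hA.1, h⟩)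
    · exact Or.inr ⟨hA.1, h⟩
  have hle := (card_le_card hsub).trans ((card_union_le _ _).trans
    (Nat.add_le_add_right (card_union_le _ _) _))
  have hle' : (((altF ((ι × Bool) ⊕ O)).filter badM).card : ℝ) ≤
      ((altF ((ι × Bool) ⊕ O)).filter (noCrit 1)).card +
        ((altF ((ι × Bool) ⊕ O)).filter (noCrit 0)).card +
      ((altF ((ι × Bool) ⊕ O)).filter
        BadColsP).card := by
    exact_mod_cast hle
  have h1 := noCrit_bound (ι := ι) (O := O) hK0 hsize 1
  have h0 := noCrit_bound (ι := ι) (O := O) hK0 hsize 0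
  have hn := not_nice_bound (ι := ι) (O := O) hK0
  have hb := bad_cols (X := (ι × Bool) ⊕ O)
  set a := (altF ((ι × Bool) ⊕ O)).card
  set nb := ((altF ((ι × Bool) ⊕ O)).filter BadColsP).card
  generalize Fintype.card ((ι × Bool) ⊕ O) = k at *
  generalize Fintype.card (ι × Bool) = t at *
  have hp : (0 : ℝ) < 2 ^ k := by positivity
  have hb' : (nb : ℝ) ≤
        (k : ℝ) ^ 2 * (((k : ℝ) + (k : ℝ) ^ 2) * (2 * a)) / 2 ^ k := by
    rw [le_div_iff₀ hp]; exact_mod_cast hb
  refine hle'.trans ((add_le_add (add_le_add (h1.trans (add_le_add_left hn _))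
    (h0.trans (add_le_add_left hn _))) hb').trans (le_of_eq ?_))
  ring

end

end

end Run7.h8
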