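import Pool.Agent.Run7.h8.Almost

set_option autoImplicit false
set_option linter.unusedVariables false
set_option linter.unusedSimpArgs false
set_option linter.unusedSectionVars false

namespace Run7.h8

open Matrix Finset Classical

noncomputable section

section

variable {X : Type*} [Fintype X]

/-- the alternating matrices killing a family of vectors -/
def killF {d : ℕ} (z : Fin d → X → ZMod 2) : Finset (Matrix X X (ZMod 2)) :=
  (altF X).filter (fun A => ∀ i, A *ᵥ z i = 0)

theorem mem_killF {d : ℕ} {z : Fin d → X → ZMod 2} {A : Matrix X X (ZMod 2)} :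
    A ∈ killF z ↔ IsAltM A ∧ ∀ i, A *ᵥ z i = 0 := by
  unfold killF
  rw [mem_filter, mem_altF]

/-- the rank two alternating matrix -/
def wedgeM (v w : X → ZMod 2) : Matrix X X (ZMod 2) :=
  Matrix.of fun x y => v x * w y + w x * v y

theorem wedgeM_alt (v w : X → ZMod 2) : IsAltM (wedgeM v w) where
  symm := by
    ext x y
    simp only [transpose_apply, wedgeM, of_apply]
    ring
  diag x := by
    simp only [wedgeM, of_apply]
    rw [mul_comm (w x)]
    exact z2_add_self _

theorem wedgeM_mulVec (v w z : X → ZMod 2) :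
    wedgeM v w *ᵥ z = (w ⬝ᵥ z) • v + (v ⬝ᵥ z) • w := by
  funext x
  simp only [mulVec, dotProduct, wedgeM, of_apply, Pi.add_apply, Pi.smul_apply, smul_eq_mul]
  rw [Finset.sum_mul, Finset.sum_mul, ← Finset.sum_add_distrib]
  refine Finset.sum_congr rfl fun y _ => ?_
  ring

/-- the vectors orthogonal to a family -/
def orthF {d : ℕ} (z : Fin d → X → ZMod 2) : Finset (X → ZMod 2) :=
  univ.filter (fun v => ∀ i, v ⬝ᵥ z i = 0)

theorem mem_orthF {d : ℕ} {z : Fin d → X → ZMod 2} {v : X → ZMod 2} :
    v ∈ orthF z ↔ ∀ i, v ⬝ᵥ z i = 0 := by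
  simp [orthF]

theorem orthF_card {d : ℕ} (z : Fin d → X → ZMod 2) :
    2 ^ Fintype.card X ≤ 2 ^ d * (orthF z).card := by
  have h1 : (univ : Finset (X → ZMod 2)).card ≤
      (orthF z).card * (univ : Finset (Fin d → ZMod 2)).card := by
    refine card_le_mul_card_image_of_maps_to (f := fun v i => v ⬝ᵥ z i)
      (fun _ _ => mem_univ _) _ ?_
    intro c _
    rcases ((univ.filter (fun v : X → ZMod 2 => (fun i => v ⬝ᵥ z i) = c)).eq_empty_or_nonempty)
      with he | ⟨v0, h0⟩
    · rw [he]; simp
    · refine card_le_card_of_injOn (fun v => v - v0) ?_ ?_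
      · intro v hv
        simp only [coe_filter, mem_univ, true_and, Set.mem_ofPred_eq, mem_filter] at hv h0
        rw [mem_coe, mem_orthF]
        intro i
        rw [sub_dotProduct, sub_eq_zero]
        exact (congrFun hv i).trans (congrFun h0 i).symm
      · intro v _ v' _ h
        simpa using h
  rw [card_univ, card_univ, Fintype.card_fun, Fintype.card_fun, ZMod.card, Fintype.card_fin,
    mul_comm] at h1
  exact h1

theorem kill_step {d : ℕ} {z : Fin (d + 1) → X → ZMod 2} (hz : LinearIndependent (ZMod 2) z) :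
    (killF z).card * 2 ^ Fintype.card X ≤ 2 ^ (d + 1) * (killF (Fin.tail z)).card := by
  rw [linearIndependent_finSucc] at hz
  obtain ⟨-, hz0⟩ := hz
  obtain ⟨f, hf1, hf2⟩ := Submodule.exists_le_ker_of_notMem hz0
  obtain ⟨w, hw⟩ := exists_dot f
  have hw1 : w ⬝ᵥ z 0 = 1 := by
    rw [← hw]; exact z2_ne_zero hf1
  have hw2 : ∀ i : Fin d, w ⬝ᵥ z i.succ = 0 := by
    intro i
    rw [← hw]
    exact hf2 (Submodule.subset_span ⟨i, rfl⟩)
  have h1 : (killF z ×ˢ orthF z).card ≤ (killF (Fin.tail z)).card := by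
    refine card_le_card_of_injOn (fun a => a.1 + wedgeM a.2 w) ?_ ?_
    · rintro ⟨A, v⟩ h
      simp only [coe_product, Set.mem_prod, mem_coe, mem_killF, mem_orthF] at h
      rw [mem_coe, mem_killF]
      refine ⟨h.1.1.add (wedgeM_alt v w), fun i => ?_⟩
      show (A + wedgeM v w) *ᵥ z i.succ = 0
      rw [add_mulVec, h.1.2, wedgeM_mulVec, hw2, h.2]
      simp
    · rintro ⟨A, v⟩ h ⟨A', v'⟩ h' heq
      simp only [coe_product, Set.mem_prod, mem_coe, mem_killF, mem_orthF] at h h'
      have heq' : A + wedgeM v w = A' + wedgeM v' w := heq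
      have hv : v = v' := by
        have h3 := congrArg (fun M => M *ᵥ z 0) heq'
        simp only [add_mulVec, h.1.2, h'.1.2, wedgeM_mulVec, h.2, h'.2, hw1, one_smul,
          zero_smul, add_zero, zero_add] at h3
        exact h3
      subst hv
      rw [add_right_cancel heq']
  rw [card_product] at h1
  calc (killF z).card * 2 ^ Fintype.card X
      ≤ (killF z).card * (2 ^ (d + 1) * (orthF z).card) :=
        Nat.mul_le_mul_left _ (orthF_card z)
    _ = 2 ^ (d + 1) * ((killF z).card * (orthF z).card) := by ring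
    _ ≤ _ := Nat.mul_le_mul_left _ h1

theorem kill_card {d : ℕ} {z : Fin d → X → ZMod 2} (hz : LinearIndependent (ZMod 2) z) :
    (killF z).card * (2 ^ Fintype.card X) ^ d ≤ 2 ^ (d * d) * (altF X).card := by
  induction d with
  | zero =>
    simp only [pow_zero, mul_one, mul_zero, one_mul]
    exact card_le_card (filter_subset _ _)
  | succ d ih =>
    have h1 := kill_step hz
    have h2 := ih (linearIndependent_finSucc.1 hz).1
    calc (killF z).card * (2 ^ Fintype.card X) ^ (d + 1)
        = ((killF z).card * 2 ^ Fintype.card X) * (2 ^ Fintype.card X) ^ d := by ring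
      _ ≤ (2 ^ (d + 1) * (killF (Fin.tail z)).card) * (2 ^ Fintype.card X) ^ d :=
        Nat.mul_le_mul_right _ h1
      _ = 2 ^ (d + 1) * ((killF (Fin.tail z)).card * (2 ^ Fintype.card X) ^ d) := by ring
      _ ≤ 2 ^ (d + 1) * (2 ^ (d * d) * (altF X).card) := Nat.mul_le_mul_left _ h2
      _ = 2 ^ (d + 1 + d * d) * (altF X).card := by rw [pow_add _ (d + 1)]; ring
      _ ≤ _ := by
        refine Nat.mul_le_mul_right _ (Nat.pow_le_pow_right (by norm_num) ?_)
        nlinarith

/-- independent tuples in the kernel -/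
def indT (d : ℕ) (A : Matrix X X (ZMod 2)) : Finset (Fin d → X → ZMod 2) :=
  univ.filter (fun z => LinearIndependent (ZMod 2) z ∧ ∀ i, A *ᵥ z i = 0)

theorem mem_indT {d : ℕ} {A : Matrix X X (ZMod 2)} {z : Fin d → X → ZMod 2} :
    z ∈ indT d A ↔ LinearIndependent (ZMod 2) z ∧ ∀ i, A *ᵥ z i = 0 := by
  simp [indT]

theorem sum_indT (d : ℕ) :
    ∑ A ∈ altF X, (indT d A).card ≤ 2 ^ (d * d) * (altF X).card := by
  have h0 : ∑ A ∈ altF X, (indT d A).card =
      ∑ z ∈ univ.filter (fun z : Fin d → X → ZMod 2 => LinearIndependent (ZMod 2) z),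
        (killF z).card := by
    simp only [indT, killF, card_filter, sum_filter]
    rw [sum_comm]
    refine sum_congr rfl fun z _ => ?_
    by_cases hz : LinearIndependent (ZMod 2) z <;> simp [hz]
  have h1 : 0 < (2 ^ Fintype.card X) ^ d := by positivity
  refine Nat.le_of_mul_le_mul_right ?_ h1
  rw [h0, sum_mul]
  calc ∑ z ∈ univ.filter (fun z : Fin d → X → ZMod 2 => LinearIndependent (ZMod 2) z),
        (killF z).card * (2 ^ Fintype.card X) ^ d
      ≤ ∑ z ∈ univ.filter (fun z : Fin d → X → ZMod 2 => LinearIndependent (ZMod 2) z),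
        2 ^ (d * d) * (altF X).card := by
        refine sum_le_sum fun z hz => kill_card ?_
        simpa using hz
    _ = (univ.filter (fun z : Fin d → X → ZMod 2 => LinearIndependent (ZMod 2) z)).card *
          (2 ^ (d * d) * (altF X).card) := by rw [sum_const, smul_eq_mul]
    _ ≤ (2 ^ Fintype.card X) ^ d * (2 ^ (d * d) * (altF X).card) := by
        refine Nat.mul_le_mul_right _ ?_
        refine (card_le_card (filter_subset _ _)).trans ?_
        rw [card_univ, Fintype.card_fun, Fintype.card_fun, ZMod.card, Fintype.card_fin]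
    _ = _ := by ring

/-- the span of `d` vectors has at most `2 ^ d` elements -/
def spanF {d : ℕ} (z : Fin d → X → ZMod 2) : Finset (X → ZMod 2) :=
  univ.filter (fun v => v ∈ Submodule.span (ZMod 2) (Set.range z))

theorem spanF_card {d : ℕ} (z : Fin d → X → ZMod 2) : (spanF z).card ≤ 2 ^ d := by
  have h1 : spanF z ⊆ (univ : Finset (Fin d → ZMod 2)).image (fun c => ∑ i, c i • z i) := by
    intro v hv
    simp only [spanF, mem_filter, mem_univ, true_and] at hv
    obtain ⟨c, hc⟩ := (Submodule.mem_span_range_iff_exists_fun (ZMod 2)).1 hv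
    exact mem_image.2 ⟨c, mem_univ _, hc⟩
  refine (card_le_card h1).trans (card_image_le.trans (le_of_eq ?_))
  rw [card_univ, Fintype.card_fun, ZMod.card, Fintype.card_fin]

theorem mem_kerF' {T O : Type*} [Fintype T] [Fintype O]
    {A : Matrix (T ⊕ O) (T ⊕ O) (ZMod 2)} {z : T ⊕ O → ZMod 2} :
    z ∈ kerF A ↔ A *ᵥ z = 0 := by
  simp [kerF]

/-- the kernel -/
def kerX (A : Matrix X X (ZMod 2)) : Finset (X → ZMod 2) := univ.filter (fun z => A *ᵥ z = 0)

theorem mem_kerX {A : Matrix X X (ZMod 2)} {z : X → ZMod 2} : z ∈ kerX A ↔ A *ᵥ z = 0 := by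
  simp [kerX]

theorem indT_succ (d : ℕ) (A : Matrix X X (ZMod 2)) :
    (indT d A).card * ((kerX A).card - 2 ^ d) ≤ (indT (d + 1) A).card := by
  have h1 : ((indT d A).sigma (fun z => kerX A \ spanF z)).card ≤ (indT (d + 1) A).card := by
    refine card_le_card_of_injOn (fun a => Fin.cons a.2 a.1) ?_ ?_
    · rintro ⟨z, v⟩ h
      simp only [coe_sigma, Set.mem_sigma_iff, mem_coe, mem_sdiff, mem_indT, mem_kerX, spanF,
        mem_filter, mem_univ, true_and] at h
      rw [mem_coe, mem_indT]
      refine ⟨?_, fun i => ?_⟩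
      · rw [linearIndependent_finCons]
        exact ⟨h.1.1, h.2.2⟩
      · refine Fin.cases ?_ (fun j => ?_) i
        · exact h.2.1
        · exact h.1.2 j
    · rintro ⟨z, v⟩ _ ⟨z', v'⟩ _ h
      have h' : (Fin.cons v z : Fin (d + 1) → X → ZMod 2) = Fin.cons v' z' := h
      have := Fin.cons_injective2 h'
      rw [this.1, this.2]
  refine le_trans ?_ h1
  rw [card_sigma, ← smul_eq_mul, ← sum_const]
  refine sum_le_sum fun z _ => ?_
  have h2 := le_card_sdiff (spanF z) (kerX A)
  have h3 := spanF_card z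
  omega

theorem indT_card (D d : ℕ) (hd : d ≤ D) (A : Matrix X X (ZMod 2)) :
    ((kerX A).card - 2 ^ D) ^ d ≤ (indT d A).card := by
  induction d with
  | zero =>
    rw [pow_zero, Nat.one_le_iff_ne_zero, ← Nat.pos_iff_ne_zero, card_pos]
    exact ⟨fun i => i.elim0, mem_indT.2 ⟨linearIndependent_empty_type, fun i => i.elim0⟩⟩
  | succ d ih =>
    have h1 := ih (by omega)
    have h2 := indT_succ d A
    have h3 : 2 ^ d ≤ 2 ^ D := Nat.pow_le_pow_right (by norm_num) (by omega)
    calc ((kerX A).card - 2 ^ D) ^ (d + 1)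
        = ((kerX A).card - 2 ^ D) ^ d * ((kerX A).card - 2 ^ D) := pow_succ _ _
      _ ≤ (indT d A).card * ((kerX A).card - 2 ^ d) := Nat.mul_le_mul h1 (by omega)
      _ ≤ _ := h2

/-- Higher moment bound for the number of matrices with a large kernel. -/
theorem large_ker_pow (K D : ℕ) (hK : 2 * 2 ^ D ≤ K) :
    ((altF X).filter (LargeKer K)).card * K ^ D ≤ 2 ^ (D * D + D) * (altF X).card := by
  have h1 : ((altF X).filter (LargeKer K)).card * K ^ D ≤
      2 ^ D * ∑ A ∈ (altF X).filter (LargeKer K), (indT D A).card := by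
    rw [mul_sum, ← smul_eq_mul, ← sum_const]
    refine sum_le_sum fun A hA => ?_
    have h2 : K ≤ (kerNZ A).card := (mem_filter.1 hA).2
    have h3 : (kerNZ A).card ≤ (kerX A).card := by
      refine card_le_card fun z hz => ?_
      rw [mem_kerNZ] at hz
      exact mem_kerX.2 hz.2
    have h4 := indT_card D D le_rfl A
    calc K ^ D ≤ (2 * ((kerX A).card - 2 ^ D)) ^ D := Nat.pow_le_pow_left (by omega) _
      _ = 2 ^ D * ((kerX A).card - 2 ^ D) ^ D := mul_pow _ _ _
      _ ≤ _ := Nat.mul_le_mul_left _ h4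
  calc _ ≤ 2 ^ D * ∑ A ∈ (altF X).filter (LargeKer K), (indT D A).card := h1
    _ ≤ 2 ^ D * ∑ A ∈ altF X, (indT D A).card :=
        Nat.mul_le_mul_left _ (sum_le_sum_of_subset (filter_subset _ _))
    _ ≤ 2 ^ D * (2 ^ (D * D) * (altF X).card) := Nat.mul_le_mul_left _ (sum_indT D)
    _ = _ := by rw [pow_add]; ring

end

end

end Run7.h8
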