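import Pool.Agent.Run7.h8.Count5

set_option autoImplicit false
set_option linter.unusedVariables false
set_option linter.unusedSimpArgs false
set_option linter.unusedSectionVars false

namespace Run7.h8

open Matrix Finset Classical Filter Topology

noncomputable section

section

variable {ι O : Type*} [Fintype ι] [Fintype O]

theorem real_div3 {a s K D c : ℕ} (hK : 0 < K) (h : s * K ^ D ≤ c * a) :
    (s : ℝ) ≤ c * a / (K : ℝ) ^ D := by
  have hK' : (0 : ℝ) < (K : ℝ) ^ D := by positivity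
  rw [le_div_iff₀ hK']; exact_mod_cast h

theorem not_nice_bound' {K D : ℕ} (hK : 2 * 2 ^ D ≤ K) :
    (((altF ((ι × Bool) ⊕ O)).filter (fun A => ¬ nice K A)).card : ℝ) ≤
      (altF ((ι × Bool) ⊕ O)).card * (2 ^ (D * D + D) / (K : ℝ) ^ D +
        2 * 2 ^ Fintype.card (ι × Bool) / 2 ^ Fintype.card ((ι × Bool) ⊕ O)) := by
  have hK0 : 0 < K := lt_of_lt_of_le (by positivity) hK
  let S : Finset ((ι × Bool) ⊕ O → ZMod 2) :=
    ((univ.filter (fun ζ : ι × Bool → ZMod 2 => ζ ≠ 0)).image extT)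
  have hS : ∀ z ∈ S, z ≠ 0 := by
    intro z hz
    simp only [S, mem_image, mem_filter, mem_univ, true_and] at hz
    obtain ⟨ζ, h1, rfl⟩ := hz
    intro h2
    apply h1
    apply extT_inj (O := O)
    rw [h2]
    funext x
    rcases x with x | x <;> rfl
  have hScard : S.card ≤ 2 ^ Fintype.card (ι × Bool) := by
    refine card_image_le.trans ((card_le_card (filter_subset _ _)).trans (le_of_eq ?_))
    rw [card_univ, Fintype.card_fun, ZMod.card]
  have h1 := ker_union S hS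
  have h2 := large_ker_pow (X := (ι × Bool) ⊕ O) K D hK
  have hsub : (altF ((ι × Bool) ⊕ O)).filter (fun A => ¬ nice K A) ⊆
      ((altF ((ι × Bool) ⊕ O)).filter (KerHit S)) ∪
      ((altF ((ι × Bool) ⊕ O)).filter (LargeKer K)) := by
    intro A hA
    rw [mem_filter] at hA
    rw [mem_union, mem_filter, mem_filter]
    obtain ⟨hA1, hA2⟩ := hA
    unfold nice at hA2
    rw [not_and_or] at hA2
    rcases hA2 with h | h
    · left
      refine ⟨hA1, ?_⟩
      unfold TFree at h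
      push Not at h
      obtain ⟨ζ, h3, h4⟩ := h
      refine ⟨extT ζ, ?_, h3⟩
      simp only [S, mem_image, mem_filter, mem_univ, true_and]
      exact ⟨ζ, h4, rfl⟩
    · right
      refine ⟨hA1, ?_⟩
      push Not at h
      have h5 : kerF A ⊆ insert 0 (kerNZ A) := by
        intro z hz
        simp only [kerF, mem_filter, mem_univ, true_and] at hz
        rw [mem_insert, mem_kerNZ]
        by_cases h0 : z = 0
        · exact Or.inl h0
        · exact Or.inr ⟨h0, hz⟩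
      have h6 := (card_le_card h5).trans (card_insert_le _ _)
      unfold LargeKer
      omega
  have hle := (card_le_card hsub).trans (card_union_le _ _)
  have h3 : ((altF ((ι × Bool) ⊕ O)).filter (KerHit S)).card *
      2 ^ Fintype.card ((ι × Bool) ⊕ O) ≤
      2 ^ Fintype.card (ι × Bool) * (2 * (altF ((ι × Bool) ⊕ O)).card) :=
    h1.trans (Nat.mul_le_mul_right _ hScard)
  have h2' := real_div3 hK0 h2
  have h1' := real_div2 h3
  have hle' := (Nat.cast_le (α := ℝ)).2 hle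
  rw [Nat.cast_add] at hle'
  refine hle'.trans ((add_le_add h1' h2').trans (le_of_eq ?_))
  push_cast
  ring

/-- Bound for the proportion of bad matrices. -/
theorem badM_bound' {K D : ℕ} (hK : 2 * 2 ^ D ≤ K)
    (hsize : 2 * (K * 2 ^ Fintype.card (ι × Bool)) ≤ 2 ^ Fintype.card O) :
    (((altF ((ι × Bool) ⊕ O)).filter badM).card : ℝ) ≤
      (altF ((ι × Bool) ⊕ O)).card * (
        2 * ((2 ^ (D * D + D) / (K : ℝ) ^ D + 2 * 2 ^ Fintype.card (ι × Bool) /
          2 ^ Fintype.card ((ι × Bool) ⊕ O)) +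
          (1 - (1 / (4 * (K : ℝ) ^ 2)) / 2) ^ Fintype.card ι) +
        (Fintype.card ((ι × Bool) ⊕ O) : ℝ) ^ 2 * ((Fintype.card ((ι × Bool) ⊕ O) : ℝ) +
          (Fintype.card ((ι × Bool) ⊕ O) : ℝ) ^ 2) * 2 /
            2 ^ Fintype.card ((ι × Bool) ⊕ O)) := by
  have hK0 : 0 < K := lt_of_lt_of_le (by positivity) hK
  have hsub : (altF ((ι × Bool) ⊕ O)).filter badM ⊆
      ((altF ((ι × Bool) ⊕ O)).filter (noCrit 1) ∪
        (altF ((ι × Bool) ⊕ O)).filter (noCrit 0)) ∪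
      (altF ((ι × Bool) ⊕ O)).filter BadColsP := by
    intro A hA
    rw [mem_filter] at hA
    rw [mem_union, mem_union, mem_filter, mem_filter, mem_filter]
    rcases badM_sub hA.2 with h | h | h
    · exact Or.inl (Or.inl ⟨hA.1, h⟩)
    · exact Or.inl (Or.inr ⟨hA.1, h⟩)
    · exact Or.inr ⟨hA.1, h⟩
  have hle := (card_le_card hsub).trans ((card_union_le _ _).trans
    (Nat.add_le_add_right (card_union_le _ _) _))
  have hle' : (((altF ((ι × Bool) ⊕ O)).filter badM).card : ℝ) ≤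
      ((altF ((ι × Bool) ⊕ O)).filter (noCrit 1)).card +
        ((altF ((ι × Bool) ⊕ O)).filter (noCrit 0)).card +
      ((altF ((ι × Bool) ⊕ O)).filter
        BadColsP).card := by
    exact_mod_cast hle
  have h1 := noCrit_bound (ι := ι) (O := O) hK0 hsize 1
  have h0 := noCrit_bound (ι := ι) (O := O) hK0 hsize 0
  have hn := not_nice_bound' (ι := ι) (O := O) hK
  have hb := bad_cols (X := (ι × Bool) ⊕ O)
  set a := (altF ((ι × Bool) ⊕ O)).card
  set nb := ((altF ((ι × Bool) ⊕ O)).filter BadColsP).card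
  generalize Fintype.card ((ι × Bool) ⊕ O) = k at *
  generalize Fintype.card (ι × Bool) = t at *
  have hp : (0 : ℝ) < 2 ^ k := by positivity
  have hb' : (nb : ℝ) ≤
        (k : ℝ) ^ 2 * (((k : ℝ) + (k : ℝ) ^ 2) * (2 * a)) / 2 ^ k := by
    rw [le_div_iff₀ hp]; exact_mod_cast hb
  refine hle'.trans ((add_le_add (add_le_add (h1.trans (add_le_add_left hn _))
    (h0.trans (add_le_add_left hn _))) hb').trans (le_of_eq ?_))
  ring

end

/-- the error bound -/
def bnd' (D K m k : ℕ) : ℝ :=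
  2 * ((2 ^ (D * D + D) / (K : ℝ) ^ D + 2 * 2 ^ (2 * m) / 2 ^ k) +
    (1 - (1 / (4 * (K : ℝ) ^ 2)) / 2) ^ m) +
    (k : ℝ) ^ 2 * ((k : ℝ) + (k : ℝ) ^ 2) * 2 / 2 ^ k

theorem exc_fin' {D K m n : ℕ} (hK : 2 * 2 ^ D ≤ K) (hsize : 2 * (K * 2 ^ (2 * m)) ≤ 2 ^ n) :
    (Nat.card {H : SimpleGraph (Fin (2 * m + n)) // ¬ HasSat H} : ℝ) ≤
      Nat.card (SimpleGraph (Fin (2 * m + n))) * bnd' D K m (2 * m + n) := by
  have hT : Fintype.card (Fin m × Bool) = 2 * m := by simp [mul_comm]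
  have hX : Fintype.card ((Fin m × Bool) ⊕ Fin n) = 2 * m + n := by
    rw [Fintype.card_sum, hT, Fintype.card_fin]
  have e : (Fin m × Bool) ⊕ Fin n ≃ Fin (2 * m + n) :=
    Fintype.equivOfCardEq (by rw [hX, Fintype.card_fin])
  rw [← card_exc_congr e, ← card_graphs_congr e, card_graphs]
  have h1 := badM_bound' (ι := Fin m) (O := Fin n) hK (by
    rw [hT, Fintype.card_fin]; exact hsize)
  rw [hT, hX, Fintype.card_fin] at h1
  exact ((Nat.cast_le (α := ℝ)).2 card_exc).trans h1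

/-- fourth root -/
def rt (k : ℕ) : ℕ := Nat.sqrt (Nat.sqrt k)

theorem rt_le (k : ℕ) : rt k ^ 4 ≤ k := by
  unfold rt
  have h1 := Nat.sqrt_le' (Nat.sqrt k)
  have h2 := Nat.sqrt_le' k
  calc (Nat.sqrt (Nat.sqrt k)) ^ 4 = ((Nat.sqrt (Nat.sqrt k)) ^ 2) ^ 2 := by ring
    _ ≤ (Nat.sqrt k) ^ 2 := Nat.pow_le_pow_left h1 2
    _ ≤ k := h2

theorem lt_rt (k : ℕ) : k < (rt k + 1) ^ 4 := by
  unfold rt
  have h1 := Nat.lt_succ_sqrt' (Nat.sqrt k)
  have h2 := Nat.lt_succ_sqrt' k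
  rw [Nat.succ_eq_add_one] at h1 h2
  calc k < (Nat.sqrt k + 1) ^ 2 := h2
    _ ≤ ((Nat.sqrt (Nat.sqrt k) + 1) ^ 2) ^ 2 := Nat.pow_le_pow_left h1 2
    _ = _ := by ring

theorem rt_tendsto : Tendsto rt atTop atTop := by
  rw [tendsto_atTop_atTop]
  intro b
  refine ⟨b ^ 4, fun k hk => ?_⟩
  by_contra h
  push Not at h
  have h1 := lt_rt k
  have h2 : (rt k + 1) ^ 4 ≤ b ^ 4 := Nat.pow_le_pow_left h 4
  omega

theorem rt_pow_bound (j k : ℕ) (h : 1 ≤ rt k) :
    (k : ℝ) ^ j ≤ (2 : ℝ) ^ (4 * j) * (rt k : ℝ) ^ (4 * j) := by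
  have h1 : k ≤ (2 * rt k) ^ 4 :=
    (lt_rt k).le.trans (Nat.pow_le_pow_left (by omega) 4)
  have h2 : k ^ j ≤ (2 * rt k) ^ (4 * j) := by
    calc k ^ j ≤ ((2 * rt k) ^ 4) ^ j := Nat.pow_le_pow_left h1 j
      _ = _ := by rw [← pow_mul]
  have h3 : ((k ^ j : ℕ) : ℝ) ≤ (((2 * rt k) ^ (4 * j) : ℕ) : ℝ) := by exact_mod_cast h2
  push_cast at h3
  rw [mul_pow] at h3
  exact h3

theorem T1 (j : ℕ) (C : ℝ) (hC : 0 ≤ C) :
    Tendsto (fun k : ℕ => (k : ℝ) ^ j * (C / (rt k : ℝ) ^ (4 * j + 1))) atTop (𝓝 0) := by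
  have h0 : Tendsto (fun k : ℕ => (2 : ℝ) ^ (4 * j) * C * (1 / (rt k : ℝ))) atTop (𝓝 0) := by
    have h1 : Tendsto (fun k : ℕ => 1 / (rt k : ℝ)) atTop (𝓝 0) :=
      (tendsto_one_div_atTop_nhds_zero_nat (𝕜 := ℝ)).comp rt_tendsto
    simpa using h1.const_mul ((2 : ℝ) ^ (4 * j) * C)
  refine squeeze_zero' (Eventually.of_forall fun k => by positivity) ?_ h0
  filter_upwards [rt_tendsto.eventually_ge_atTop 1] with k hk
  have hK : (0 : ℝ) < rt k := by exact_mod_cast hk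
  have h1 := rt_pow_bound j k hk
  calc (k : ℝ) ^ j * (C / (rt k : ℝ) ^ (4 * j + 1))
      ≤ ((2 : ℝ) ^ (4 * j) * (rt k : ℝ) ^ (4 * j)) * (C / (rt k : ℝ) ^ (4 * j + 1)) :=
        mul_le_mul_of_nonneg_right h1 (by positivity)
    _ = (2 : ℝ) ^ (4 * j) * C * (1 / (rt k : ℝ)) := by
        rw [pow_succ]
        field_simp

theorem T2 (j : ℕ) (C : ℝ) (hC : 0 ≤ C) :
    Tendsto (fun k : ℕ => (k : ℝ) ^ j * (C * 2 ^ (2 * (k / 5)) / 2 ^ k)) atTop (𝓝 0) := by
  have h0 : Tendsto (fun k : ℕ => C * ((k : ℝ) ^ j * (3 / 4 : ℝ) ^ k)) atTop (𝓝 0) := by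
    have := tendsto_pow_const_mul_const_pow_of_abs_lt_one j
      (show |(3 / 4 : ℝ)| < 1 by rw [abs_of_pos (by norm_num)]; norm_num)
    simpa using this.const_mul C
  refine squeeze_zero (fun k => by positivity) (fun k => ?_) h0
  have h1 : (2 : ℝ) ^ (2 * (k / 5)) ≤ (3 / 2 : ℝ) ^ k := by
    calc (2 : ℝ) ^ (2 * (k / 5)) = 4 ^ (k / 5) := by rw [pow_mul]; norm_num
      _ ≤ ((3 / 2 : ℝ) ^ 5) ^ (k / 5) := pow_le_pow_left₀ (by norm_num) (by norm_num) _
      _ = (3 / 2 : ℝ) ^ (5 * (k / 5)) := by rw [← pow_mul]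
      _ ≤ _ := pow_le_pow_right₀ (by norm_num) (Nat.mul_div_le k 5)
  have h2 : (3 / 4 : ℝ) ^ k = (3 / 2 : ℝ) ^ k / 2 ^ k := by
    rw [← div_pow]; norm_num
  rw [h2]
  calc (k : ℝ) ^ j * (C * 2 ^ (2 * (k / 5)) / 2 ^ k)
      = C * ((k : ℝ) ^ j * (2 ^ (2 * (k / 5)) / 2 ^ k)) := by ring
    _ ≤ _ := by
      refine mul_le_mul_of_nonneg_left (mul_le_mul_of_nonneg_left ?_ (by positivity)) hC
      exact div_le_div_of_nonneg_right h1 (by positivity)

theorem T3 (j : ℕ) :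
    Tendsto (fun k : ℕ => (k : ℝ) ^ j *
      (1 - (1 / (4 * (rt k : ℝ) ^ 2)) / 2) ^ (k / 5)) atTop (𝓝 0) := by
  have hr : |Real.exp (-(1 / 40))| < 1 := by
    rw [abs_of_pos (Real.exp_pos _), Real.exp_lt_one_iff]; norm_num
  have h0 : Tendsto (fun k : ℕ => (2 : ℝ) ^ (4 * j) * Real.exp 1 *
      ((rt k : ℝ) ^ (4 * j) * Real.exp (-(1 / 40)) ^ (rt k))) atTop (𝓝 0) := by
    have h1 := (tendsto_pow_const_mul_const_pow_of_abs_lt_one (4 * j) hr).comp rt_tendsto
    simpa using h1.const_mul ((2 : ℝ) ^ (4 * j) * Real.exp 1)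
  have hev := rt_tendsto.eventually_ge_atTop 1
  have hx : ∀ k, 1 ≤ rt k → (0 : ℝ) ≤ 1 - (1 / (4 * (rt k : ℝ) ^ 2)) / 2 := by
    intro k hk
    have h1 : (1 : ℝ) ≤ rt k := by exact_mod_cast hk
    have h4 : (1 : ℝ) ≤ 4 * (rt k : ℝ) ^ 2 := by nlinarith
    have h5 : 1 / (4 * (rt k : ℝ) ^ 2) ≤ 1 := by
      rw [div_le_one (by linarith)]; exact h4
    linarith
  refine squeeze_zero' ?_ ?_ h0
  · filter_upwards [hev] with k hk
    exact mul_nonneg (by positivity) (pow_nonneg (hx k hk) _)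
  · filter_upwards [hev] with k hk
    have hK : (1 : ℝ) ≤ rt k := by exact_mod_cast hk
    have hK0 : (0 : ℝ) < rt k := by linarith
    have h1 := rt_pow_bound j k hk
    have h2 : (1 - (1 / (4 * (rt k : ℝ) ^ 2)) / 2) ^ (k / 5) ≤
        Real.exp 1 * Real.exp (-(1 / 40)) ^ (rt k) := by
      have h3 : (1 - (1 / (4 * (rt k : ℝ) ^ 2)) / 2) ≤
          Real.exp (-((1 / (4 * (rt k : ℝ) ^ 2)) / 2)) := by
        have := Real.add_one_le_exp (-((1 / (4 * (rt k : ℝ) ^ 2)) / 2))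
        linarith
      calc (1 - (1 / (4 * (rt k : ℝ) ^ 2)) / 2) ^ (k / 5)
          ≤ (Real.exp (-((1 / (4 * (rt k : ℝ) ^ 2)) / 2))) ^ (k / 5) :=
            pow_le_pow_left₀ (hx k hk) h3 _
        _ = Real.exp ((k / 5 : ℕ) * (-((1 / (4 * (rt k : ℝ) ^ 2)) / 2))) := by
            rw [← Real.exp_nat_mul]
        _ ≤ Real.exp (1 + (rt k) * (-(1 / 40))) := by
            refine Real.exp_le_exp.2 ?_
            have h4 : (rt k : ℝ) ^ 4 ≤ k := by exact_mod_cast rt_le k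
            have h5 : (k : ℝ) ≤ 5 * (k / 5 : ℕ) + 4 := by
              have : k ≤ 5 * (k / 5) + 4 := by omega
              exact_mod_cast this
            set M : ℝ := ((k / 5 : ℕ) : ℝ) with hM
            set K : ℝ := (rt k : ℝ) with hKK
            have h6 : K ^ 4 ≤ 5 * M + 4 := h4.trans h5
            have h7 : M * (-((1 / (4 * K ^ 2)) / 2)) = -(M / (8 * K ^ 2)) := by
              field_simp
              ring
            rw [h7]
            have h8 : K / 40 - 1 ≤ M / (8 * K ^ 2) := by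
              rw [le_div_iff₀ (by positivity)]
              have h9 : K ^ 3 ≤ K ^ 4 := by nlinarith [pow_pos hK0 3]
              have h10 : 1 ≤ K ^ 2 := by nlinarith
              nlinarith
            linarith
        _ = _ := by
            rw [Real.exp_add, ← Real.exp_nat_mul]
    calc (k : ℝ) ^ j * (1 - (1 / (4 * (rt k : ℝ) ^ 2)) / 2) ^ (k / 5)
        ≤ ((2 : ℝ) ^ (4 * j) * (rt k : ℝ) ^ (4 * j)) *
          (Real.exp 1 * Real.exp (-(1 / 40)) ^ (rt k)) :=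
          mul_le_mul h1 h2 (pow_nonneg (hx k hk) _) (by positivity)
      _ = _ := by ring

theorem T4 (j : ℕ) :
    Tendsto (fun k : ℕ => (k : ℝ) ^ j *
      ((k : ℝ) ^ 2 * ((k : ℝ) + (k : ℝ) ^ 2) * 2 / 2 ^ k)) atTop (𝓝 0) := by
  have h3 := tendsto_pow_div (j + 3)
  have h4 := tendsto_pow_div (j + 4)
  have h := (h3.const_mul 2).add (h4.const_mul 2)
  simp only [mul_zero, add_zero] at h
  refine h.congr fun k => ?_
  rw [pow_add, pow_add]
  ring

theorem bnd'_tendsto (j : ℕ) :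
    Tendsto (fun k : ℕ => (k : ℝ) ^ j * bnd' (4 * j + 1) (rt k) (k / 5) k) atTop (𝓝 0) := by
  have h1 := T1 j (2 ^ ((4 * j + 1) * (4 * j + 1) + (4 * j + 1))) (by positivity)
  have h2 := T2 j 2 (by norm_num)
  have h3 := T3 j
  have h4 := T4 j
  have h := (((h1.add h2).add h3).const_mul 2).add h4
  simp only [add_zero, mul_zero] at h
  refine h.congr fun k => ?_
  unfold bnd'
  ring

/-- **The proportion of exceptional graphs decays faster than any polynomial.** -/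
theorem superpoly (j : ℕ) : Tendsto (fun k : ℕ => (k : ℝ) ^ j *
    ((Nat.card {H : SimpleGraph (Fin k) // ¬ HasSat H} : ℝ) /
      Nat.card (SimpleGraph (Fin k)))) atTop (𝓝 0) := by
  refine squeeze_zero' (Eventually.of_forall fun k => by positivity) ?_ (bnd'_tendsto j)
  filter_upwards [rt_tendsto.eventually_ge_atTop (2 * 2 ^ (4 * j + 1)),
    rt_tendsto.eventually_ge_atTop 3] with k hk hk3
  have hm : 5 * (k / 5) ≤ k := Nat.mul_div_le k 5
  obtain ⟨n, hn⟩ : ∃ n, k = 2 * (k / 5) + n := ⟨k - 2 * (k / 5), by omega⟩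
  have hsize : 2 * (rt k * 2 ^ (2 * (k / 5))) ≤ 2 ^ n := by
    have h1 : rt k + 1 ≤ k / 5 := by
      have h2 := rt_le k
      have h3 : 27 * rt k ≤ rt k ^ 4 := by
        have : 27 ≤ rt k ^ 3 := by
          calc 27 = 3 ^ 3 := by norm_num
            _ ≤ _ := Nat.pow_le_pow_left hk3 3
        calc 27 * rt k ≤ rt k ^ 3 * rt k := Nat.mul_le_mul_right _ this
          _ = _ := by ring
      omega
    have h4 : rt k ≤ 2 ^ rt k := Nat.lt_two_pow_self.le
    calc 2 * (rt k * 2 ^ (2 * (k / 5))) ≤ 2 * (2 ^ rt k * 2 ^ (2 * (k / 5))) :=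
          Nat.mul_le_mul_left _ (Nat.mul_le_mul_right _ h4)
      _ = 2 ^ (1 + (rt k + 2 * (k / 5))) := by rw [pow_add, pow_add, pow_one]
      _ ≤ 2 ^ n := Nat.pow_le_pow_right (by norm_num) (by omega)
  have h := exc_fin' (K := rt k) (D := 4 * j + 1) hk hsize
  rw [← hn] at h
  have hpos : (0 : ℝ) < Nat.card (SimpleGraph (Fin k)) := by exact_mod_cast Nat.card_pos
  refine mul_le_mul_of_nonneg_left ?_ (by positivity)
  rw [div_le_iff₀ hpos]
  linarith

end

end Run7.h8
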