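import Mathlib

set_option autoImplicit false

namespace Run7.h8

/-- `G` is `H`-induced-saturated: `G` has no induced copy of `H`, and every graph `G'` on the
same vertices that differs from `G` in exactly one pair of vertices has an induced copy of `H`. -/
def IndSat {V W : Type*} (H : SimpleGraph V) (G : SimpleGraph W) : Prop :=
  IsEmpty (H ↪g G) ∧
    ∀ G' : SimpleGraph W,
      (∃ e : Sym2 W, ∀ f : Sym2 W, ((f ∈ G.edgeSet ↔ f ∈ G'.edgeSet) ↔ f ≠ e)) →
        Nonempty (H ↪g G')

end Run7.h8
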