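import Pool.Agent.Run7.h8.Symp
import Pool.Agent.Run7.h8.Defs

set_option autoImplicit false
set_option linter.unusedVariables false
set_option linter.unusedSimpArgs false

namespace Run7.h8

open Module

section Perp

variable {V : Type*} [AddCommGroup V] [Module (ZMod 2) V]
variable (B : V →ₗ[ZMod 2] V →ₗ[ZMod 2] ZMod 2)

/-- The vectors orthogonal to `p` and `q`. -/
def Perp (p q : V) : Submodule (ZMod 2) V := LinearMap.ker (B p) ⊓ LinearMap.ker (B q)

variable {B}

theorem mem_perp {p q u : V} : u ∈ Perp B p q ↔ B p u = 0 ∧ B q u = 0 := by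
  simp [Perp]

/-- The restriction of the form to the orthogonal complement of a hyperbolic pair. -/
noncomputable def resForm (B : V →ₗ[ZMod 2] V →ₗ[ZMod 2] ZMod 2) (p q : V) :
    Perp B p q →ₗ[ZMod 2] Perp B p q →ₗ[ZMod 2] ZMod 2 :=
  B.compl₁₂ (Perp B p q).subtype (Perp B p q).subtype

theorem resForm_apply (p q : V) (u v : Perp B p q) : resForm B p q u v = B u v := rfl

theorem isSymp_res (hB : IsSymp B) {p q : V} (hpq : B p q = 1) : IsSymp (resForm B p q) where
  alt u := hB.alt _
  nondeg u hu := by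
    apply Subtype.ext
    refine hB.nondeg _ fun v => ?_
    -- project v to the perp
    have hmem : v + B v q • p + B v p • q ∈ Perp B p q := by
      rw [mem_perp]
      constructor
      · simp only [map_add, map_smul, hB.alt, hpq, smul_eq_mul, mul_zero, mul_one, add_zero]
        rw [hB.symm p v]; exact z2_add_self _
      · simp only [map_add, map_smul, hB.alt, hpq, smul_eq_mul, mul_zero, add_zero]
        rw [hB.symm q v, hB.symm q p, hpq, mul_one]; exact z2_add_self _
    have h := hu ⟨_, hmem⟩
    rw [resForm_apply] at h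
    have h1 := (mem_perp.1 u.2)
    simp only [map_add, map_smul, smul_eq_mul] at h
    have e1 : B u p = 0 := by rw [hB.symm]; exact h1.1
    have e2 : B u q = 0 := by rw [hB.symm]; exact h1.2
    rw [e1, e2] at h
    simpa using h

theorem finrank_perp_lt [FiniteDimensional (ZMod 2) V] {p q : V} (hpq : B p q = 1) :
    finrank (ZMod 2) (Perp B p q) < finrank (ZMod 2) V := by
  apply Submodule.finrank_lt
  intro h
  have : q ∈ Perp B p q := by rw [h]; trivial
  rw [mem_perp, hpq] at this
  exact one_ne_zero this.1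

end Perp

section Crit

variable {V : Type*} [AddCommGroup V] [Module (ZMod 2) V]
variable {X : Type*} [DecidableEq X]

/-- The modified family of vectors. -/
def modif (v : X → V) (x y : X) (p q : V) (z : X) : V :=
  v z + (if z = x then q else 0) + (if z = y then p else 0)

/-- A critical pair `x, y` of the family `v`: dual vectors `p, q` of `v x, v y` exist and are not
orthogonal. -/
structure Crit (B : V →ₗ[ZMod 2] V →ₗ[ZMod 2] ZMod 2) (v : X → V) (x y : X) (p q : V) :
    Prop where
  hp : ∀ z, B p (v z) = if z = x then 1 else 0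
  hq : ∀ z, B q (v z) = if z = y then 1 else 0
  hpq : B p q = 1
  hxy : x ≠ y
  inj : Function.Injective (modif v x y p q)
  ne : ∀ z, modif v x y p q z ≠ 0

variable {B : V →ₗ[ZMod 2] V →ₗ[ZMod 2] ZMod 2} {v : X → V} {x y : X} {p q : V}

theorem Crit.mem (hB : IsSymp B) (c : Crit B v x y p q) (z : X) :
    modif v x y p q z ∈ Perp B p q := by
  rw [mem_perp]
  have hqp : B q p = 1 := by rw [hB.symm, c.hpq]
  unfold modif
  constructor
  · by_cases h1 : z = x
    · subst h1
      simp [c.hp, c.hxy, c.hpq, z2_add_self]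
    · by_cases h2 : z = y
      · subst h2; simp [c.hp, h1, hB.alt]
      · simp [c.hp, h1, h2]
  · by_cases h1 : z = x
    · subst h1
      simp [c.hq, c.hxy, hB.alt]
    · by_cases h2 : z = y
      · subst h2; simp [c.hq, h1, hqp, z2_add_self]
      · simp [c.hq, h1, h2]

theorem Crit.form (hB : IsSymp B) (c : Crit B v x y p q) (z z' : X) :
    B (modif v x y p q z) (modif v x y p q z') =
      B (v z) (v z') + (if (z = x ∧ z' = y) ∨ (z = y ∧ z' = x) then 1 else 0) := by
  have hqp : B q p = 1 := by rw [hB.symm, c.hpq]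
  have hp' : ∀ z, B (v z) p = if z = x then 1 else 0 := fun z => by rw [hB.symm, c.hp]
  have hq' : ∀ z, B (v z) q = if z = y then 1 else 0 := fun z => by rw [hB.symm, c.hq]
  have hxy := c.hxy
  have hyx := c.hxy.symm
  have h3 : (1 : ZMod 2) + 1 + 1 = 1 := by decide
  have e1 := c.hp
  have e2 := c.hq
  have e3 := c.hpq
  have e4 := hB.alt p
  have e5 := hB.alt q
  unfold modif
  by_cases h1 : z = x
  · subst h1
    by_cases h2 : z' = z
    · subst h2
      simp [*, add_assoc]
    · by_cases h3 : z' = y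
      · subst h3
        simp only [map_add, LinearMap.add_apply, if_true, hxy, hyx, if_false, add_zero, map_zero,
          LinearMap.zero_apply, e1, e2, e3, e4, e5, hp', hq', hqp, and_self, true_or]
        generalize B (v z) (v z') = t
        revert t; decide
      · simp [*]
  · by_cases h2 : z = y
    · subst h2
      by_cases h3 : z' = x
      · subst h3
        simp only [map_add, LinearMap.add_apply, if_true, hxy, hyx, if_false, add_zero, map_zero,
          LinearMap.zero_apply, e1, e2, e3, e4, e5, hp', hq', hqp, and_self, or_true]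
        generalize B (v z) (v z') = t
        revert t; decide
      · by_cases h4 : z' = z
        · subst h4
          simp [*, add_assoc]
        · simp [*]
    · simp only [h1, h2, if_false, add_zero, map_add, false_and, or_self]
      by_cases h3 : z' = x
      · subst h3; simp [*]
      · by_cases h4 : z' = y
        · subst h4; simp [*]
        · simp [h3, h4]

/-- A critical pair can be moved to any prescribed position. -/
theorem Crit.move [FiniteDimensional (ZMod 2) V] (hB : IsSymp B) {p₁ q₁ : V}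
    (c : Crit B v x y p₁ q₁) (hpq : B p q = 1) {a b : V} (ha : a ∈ Perp B p q)
    (hb : b ∈ Perp B p q) (ha0 : a ≠ 0) (hb0 : b ≠ 0) (hab : a ≠ b)
    (h : B a b = B (v x) (v y) + 1) :
    ∃ φ : X → V, Function.Injective φ ∧ (∀ z, φ z ∈ Perp B p q) ∧ (∀ z, φ z ≠ 0) ∧
      φ x = a ∧ φ y = b ∧ ∀ z z', B (φ z) (φ z') =
        B (v z) (v z') + (if (z = x ∧ z' = y) ∨ (z = y ∧ z' = x) then 1 else 0) := by
  have hne1 : ∀ {s t : V}, B s t = 1 → s ≠ 0 ∧ t ≠ 0 ∧ s ≠ t := by
    intro s t hst
    refine ⟨?_, ?_, ?_⟩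
    · rintro rfl; simp at hst
    · rintro rfl; simp at hst
    · rintro rfl; rw [hB.alt] at hst; exact zero_ne_one hst
  obtain ⟨n1, n2, n3⟩ := hne1 hpq
  obtain ⟨m1, m2, m3⟩ := hne1 c.hpq
  obtain ⟨g, hg, hg1, hg2⟩ := hB.move_two m1 m2 m3 n1 n2 n3 (by rw [hpq, c.hpq])
  have ginj := hg.inj hB
  -- the family u z = g (w z) in the perp
  have hu : ∀ z, g (modif v x y p₁ q₁ z) ∈ Perp B p q := by
    intro z
    have := mem_perp.1 (c.mem hB z)
    rw [mem_perp, ← hg1, ← hg2, hg, hg]
    exact this
  have hu0 : ∀ z, g (modif v x y p₁ q₁ z) ≠ 0 := fun z h0 =>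
    c.ne z (ginj (by rw [h0, map_zero]))
  have hS := isSymp_res hB hpq
  obtain ⟨k, hk, hk1, hk2⟩ := hS.move_two
    (a := ⟨_, hu x⟩) (b := ⟨_, hu y⟩) (a' := ⟨a, ha⟩) (b' := ⟨b, hb⟩)
    (fun h0 => hu0 x (congrArg Subtype.val h0)) (fun h0 => hu0 y (congrArg Subtype.val h0))
    (fun h0 => c.hxy (c.inj (ginj (congrArg Subtype.val h0))))
    (fun h0 => ha0 (congrArg Subtype.val h0)) (fun h0 => hb0 (congrArg Subtype.val h0))
    (fun h0 => hab (congrArg Subtype.val h0))
    (by
      show B (g (modif v x y p₁ q₁ x)) (g (modif v x y p₁ q₁ y)) = B a b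
      rw [hg, c.form hB, h]
      simp)
  have kinj := hk.inj hS
  refine ⟨fun z => (k ⟨_, hu z⟩ : Perp B p q), ?_, fun z => (k ⟨_, hu z⟩).2, ?_, ?_, ?_, ?_⟩
  · intro z z' hzz
    have := kinj (Subtype.ext hzz)
    exact c.inj (ginj (congrArg Subtype.val this))
  · intro z h0
    have h1 : k ⟨_, hu z⟩ = 0 := Subtype.ext h0
    have h2 := kinj (h1.trans (map_zero k).symm)
    exact hu0 z (congrArg Subtype.val h2)
  · show ((k ⟨_, hu x⟩ : Perp B p q) : V) = a
    rw [hk1]
  · show ((k ⟨_, hu y⟩ : Perp B p q) : V) = b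
    rw [hk2]
  · intro z z'
    have := hk ⟨_, hu z⟩ ⟨_, hu z'⟩
    show B _ _ = _
    rw [resForm_apply, resForm_apply] at this
    rw [this, hg, c.form hB]

end Crit

end Run7.h8
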