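import Pool.Agent.Run7.h8.Criterion

set_option autoImplicit false
set_option linter.unusedVariables false
set_option linter.unusedSimpArgs false
set_option linter.unusedSectionVars false

namespace Run7.h8

open Module

section

variable {V : Type*} [AddCommGroup V] [Module (ZMod 2) V]
variable {B : V →ₗ[ZMod 2] V →ₗ[ZMod 2] ZMod 2}

/-- The graph on the nonzero vectors orthogonal to `p` and `q`; two are adjacent when the form
takes the value one. -/
def sGraph (hB : IsSymp B) (p q : V) :
    SimpleGraph {u : V // u ∈ Perp B p q ∧ u ≠ 0} where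
  Adj a b := B a b = 1
  symm := ⟨fun a b h => by rw [hB.symm]; exact h⟩
  loopless := ⟨fun a h => by rw [hB.alt] at h; exact zero_ne_one h⟩

theorem sGraph_adj (hB : IsSymp B) (p q : V) (a b : {u : V // u ∈ Perp B p q ∧ u ≠ 0}) :
    (sGraph hB p q).Adj a b ↔ B a b = 1 := Iff.rfl

variable {X : Type*} [Fintype X] [DecidableEq X]

theorem z2_eq_of_iff {a b : ZMod 2} (h : a = 1 ↔ b = 1) : a = b := by
  revert a b; decide

/-- A dimension count: a graph represented by a spanning family of `V` has no representation in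
the perp of a hyperbolic pair. -/
theorem no_copy [FiniteDimensional (ZMod 2) V] (hB : IsSymp B) {p q : V} (hpq : B p q = 1)
    {v : X → V} (hspan : Submodule.span (ZMod 2) (Set.range v) = ⊤) (φ : X → V)
    (hφ : ∀ z, φ z ∈ Perp B p q) (h : ∀ z z', B (φ z) (φ z') = B (v z) (v z')) : False := by
  have hker : LinearMap.ker (Fintype.linearCombination (ZMod 2) φ) ≤
      LinearMap.ker (Fintype.linearCombination (ZMod 2) v) := by
    intro c hc
    rw [LinearMap.mem_ker] at hc ⊢
    refine hB.nondeg _ fun w => ?_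
    have hw : w ∈ Submodule.span (ZMod 2) (Set.range v) := by rw [hspan]; trivial
    induction hw using Submodule.span_induction with
    | mem w hw =>
      obtain ⟨z, rfl⟩ := hw
      have h1 : B (Fintype.linearCombination (ZMod 2) φ c) (φ z) = 0 := by rw [hc]; simp
      rw [Fintype.linearCombination_apply] at h1 ⊢
      rw [map_sum, LinearMap.sum_apply] at h1 ⊢
      rw [← h1]
      refine Finset.sum_congr rfl fun i _ => ?_
      rw [map_smul, map_smul, LinearMap.smul_apply, LinearMap.smul_apply, h]
    | zero => simp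
    | add x y _ _ hx hy => rw [map_add, hx, hy, add_zero]
    | smul a x _ hx => rw [map_smul, hx, smul_zero]
  have h1 := LinearMap.finrank_range_add_finrank_ker (Fintype.linearCombination (ZMod 2) φ)
  have h2 := LinearMap.finrank_range_add_finrank_ker (Fintype.linearCombination (ZMod 2) v)
  have h3 := Submodule.finrank_mono hker
  have h4 : LinearMap.range (Fintype.linearCombination (ZMod 2) φ) ≤ Perp B p q := by
    rw [Fintype.range_linearCombination, Submodule.span_le]
    rintro _ ⟨z, rfl⟩
    exact hφ z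
  have h5 := Submodule.finrank_mono h4
  have h6 : finrank (ZMod 2) (LinearMap.range (Fintype.linearCombination (ZMod 2) v)) =
      finrank (ZMod 2) V := by
    rw [Fintype.range_linearCombination, hspan, finrank_top]
  have h7 := finrank_perp_lt (B := B) hpq
  omega

/-- A copy of `H` after flipping one pair. -/
theorem flip_copy [FiniteDimensional (ZMod 2) V] (hB : IsSymp B) {p q : V} (hpq : B p q = 1)
    {v : X → V} {H : SimpleGraph X} (hH : ∀ x y, H.Adj x y ↔ B (v x) (v y) = 1)
    {x y : X} {p₁ q₁ : V} (c : Crit B v x y p₁ q₁)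
    (a b : {u : V // u ∈ Perp B p q ∧ u ≠ 0}) (hab : a ≠ b)
    (h : B (a : V) b = B (v x) (v y) + 1)
    (G' : SimpleGraph {u : V // u ∈ Perp B p q ∧ u ≠ 0})
    (hG' : ∀ f : Sym2 _, ((f ∈ (sGraph hB p q).edgeSet ↔ f ∈ G'.edgeSet) ↔ f ≠ s(a, b))) :
    Nonempty (H ↪g G') := by
  obtain ⟨φ, hinj, hmem, hne, hx, hy, hform⟩ := c.move hB hpq a.2.1 b.2.1 a.2.2 b.2.2
    (fun h => hab (Subtype.ext h)) h
  refine ⟨⟨⟨fun z => ⟨φ z, hmem z, hne z⟩, fun z z' hz => hinj (congrArg Subtype.val hz)⟩, ?_⟩⟩
  intro z z'
  show G'.Adj ⟨φ z, hmem z, hne z⟩ ⟨φ z', hmem z', hne z'⟩ ↔ H.Adj z z'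
  have key := hG' s(⟨φ z, hmem z, hne z⟩, ⟨φ z', hmem z', hne z'⟩)
  rw [SimpleGraph.mem_edgeSet, SimpleGraph.mem_edgeSet, sGraph_adj] at key
  have hform' := hform z z'
  have hax : a = ⟨φ x, hmem x, hne x⟩ := Subtype.ext hx.symm
  have hby : b = ⟨φ y, hmem y, hne y⟩ := Subtype.ext hy.symm
  by_cases hz : (z = x ∧ z' = y) ∨ (z = y ∧ z' = x)
  · have he : s((⟨φ z, hmem z, hne z⟩ : {u : V // u ∈ Perp B p q ∧ u ≠ 0}),
        ⟨φ z', hmem z', hne z'⟩) = s(a, b) := by
      rcases hz with ⟨rfl, rfl⟩ | ⟨rfl, rfl⟩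
      · rw [hax, hby]
      · rw [hax, hby, Sym2.eq_swap]
    have key2 : ¬ (B (φ z) (φ z') = 1 ↔ G'.Adj ⟨φ z, hmem z, hne z⟩ ⟨φ z', hmem z', hne z'⟩) := by
      intro hcon
      exact (key.1 hcon) he
    rw [if_pos hz] at hform'
    rw [hH]
    rcases z2_cases (B (v z) (v z')) with h0 | h0
    · rw [h0, zero_add] at hform'
      rw [hform', h0] at *
      simp only [true_iff, zero_ne_one, iff_false] at key2 ⊢
      exact key2
    · rw [h0] at hform'
      have h00 : B (φ z) (φ z') = 0 := by rw [hform']; decide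
      rw [h00] at key2
      rw [h0]
      simp only [zero_ne_one, false_iff, not_not, iff_true] at key2 ⊢
      exact key2
  · have he : s((⟨φ z, hmem z, hne z⟩ : {u : V // u ∈ Perp B p q ∧ u ≠ 0}),
        ⟨φ z', hmem z', hne z'⟩) ≠ s(a, b) := by
      rw [hax, hby]
      intro hcon
      rw [Sym2.eq_iff] at hcon
      apply hz
      rcases hcon with ⟨h1, h2⟩ | ⟨h1, h2⟩
      · left
        exact ⟨hinj (congrArg Subtype.val h1), hinj (congrArg Subtype.val h2)⟩
      · right
        exact ⟨hinj (congrArg Subtype.val h1), hinj (congrArg Subtype.val h2)⟩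
    rw [if_neg hz, add_zero] at hform'
    rw [← key.2 he, hH, hform']

/-- **The criterion.**  If some edge and some non-edge of `H` are critical, then the graph on the
nonzero vectors of the perp of a hyperbolic pair is `H`-induced-saturated. -/
theorem indSat_sGraph [FiniteDimensional (ZMod 2) V] (hB : IsSymp B) {v : X → V}
    (hspan : Submodule.span (ZMod 2) (Set.range v) = ⊤) {H : SimpleGraph X}
    (hH : ∀ x y, H.Adj x y ↔ B (v x) (v y) = 1)
    {x y : X} {p q : V} (c : Crit B v x y p q) (hxy : H.Adj x y)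
    {x' y' : X} {p' q' : V} (c' : Crit B v x' y' p' q') (hxy' : ¬ H.Adj x' y') :
    IndSat H (sGraph hB p q) := by
  refine ⟨⟨fun f => ?_⟩, ?_⟩
  · refine no_copy hB c.hpq hspan (fun z => (f z : V)) (fun z => (f z).2.1) fun z z' => ?_
    apply z2_eq_of_iff
    rw [← hH, ← f.map_adj_iff]
    exact Iff.rfl
  · rintro G' ⟨e, he⟩
    induction e using Sym2.ind with
    | _ a b =>
      have hab : a ≠ b := by
        rintro rfl
        have := he s(a, a)
        simp at this
      rcases z2_cases (B (a : V) b) with h0 | h0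
      · -- non-adjacent in G: use the critical edge
        refine flip_copy hB c.hpq hH c a b hab ?_ G' he
        rw [h0, (hH x y).1 hxy]; decide
      · refine flip_copy hB c.hpq hH c' a b hab ?_ G' he
        rw [h0]
        have : B (v x') (v y') = 0 := by
          rcases z2_cases (B (v x') (v y')) with h1 | h1
          · exact h1
          · exact absurd ((hH _ _).2 h1) hxy'
        rw [this]; decide

end

end Run7.h8
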