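import Pool.Agent.Run7.h8.Criterion2

set_option autoImplicit false
set_option linter.unusedVariables false
set_option linter.unusedSimpArgs false
set_option linter.unusedSectionVars false

namespace Run7.h8

open Module Matrix

section Transport

variable {V W W' : Type*}

theorem IndSat.iso {H : SimpleGraph V} {G : SimpleGraph W} {G₂ : SimpleGraph W'}
    (h : IndSat H G) (f : G ≃g G₂) : IndSat H G₂ := by
  refine ⟨⟨fun g => h.1.elim (g.trans f.symm.toEmbedding)⟩, ?_⟩
  rintro G' ⟨e, he⟩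
  have hex : ∃ e' : Sym2 W, ∀ s : Sym2 W,
      ((s ∈ G.edgeSet ↔ s ∈ (G'.comap f).edgeSet) ↔ s ≠ e') := by
    refine ⟨Sym2.map f.symm e, fun s => ?_⟩
    induction s using Sym2.ind with
    | _ a b =>
      have := he s(f a, f b)
      rw [SimpleGraph.mem_edgeSet, SimpleGraph.mem_edgeSet] at this
      rw [SimpleGraph.mem_edgeSet, SimpleGraph.mem_edgeSet, SimpleGraph.comap_adj,
        ← f.map_adj_iff, this, ne_eq, ne_eq, not_iff_not]
      constructor
      · intro h; rw [← h]; simp
      · intro h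
        have h2 := congrArg (Sym2.map f) h
        rw [Sym2.map_map] at h2
        simpa using h2
  obtain ⟨g⟩ := h.2 (G'.comap f) hex
  exact ⟨g.trans ⟨f.toEquiv.toEmbedding, Iff.rfl⟩⟩

/-- Any finite vertex type can be replaced by `Fin m`. -/
theorem IndSat.toFin {H : SimpleGraph V} [Fintype W] {G : SimpleGraph W} (h : IndSat H G) :
    ∃ G₂ : SimpleGraph (Fin (Fintype.card W)), IndSat H G₂ := by
  let e := Fintype.equivFin W
  exact ⟨G.map e.toEmbedding, h.iso (SimpleGraph.Iso.map e G)⟩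

end Transport

section Mat

variable {X : Type*} [Fintype X] [DecidableEq X]

/-- Symmetric with zero diagonal. -/
structure IsAltM (A : Matrix X X (ZMod 2)) : Prop where
  symm : Aᵀ = A
  diag : ∀ x, A x x = 0

theorem IsAltM.apply {A : Matrix X X (ZMod 2)} (hA : IsAltM A) (x y : X) : A x y = A y x := by
  conv_lhs => rw [← hA.symm]
  rfl

theorem IsAltM.dot {A : Matrix X X (ZMod 2)} (hA : IsAltM A) (p q : X → ZMod 2) :
    p ⬝ᵥ A *ᵥ q = A *ᵥ p ⬝ᵥ q := by
  rw [dotProduct_mulVec, ← mulVec_transpose, hA.symm]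

theorem IsAltM.quad {A : Matrix X X (ZMod 2)} (hA : IsAltM A) (p : X → ZMod 2) :
    p ⬝ᵥ A *ᵥ p = 0 := by
  simp only [dotProduct, mulVec]
  have : ∑ x, p x * ∑ y, A x y * p y = ∑ z : X × X, p z.1 * (A z.1 z.2 * p z.2) := by
    rw [Fintype.sum_prod_type]
    refine Finset.sum_congr rfl fun x _ => ?_
    rw [Finset.mul_sum]
  rw [this]
  refine Finset.sum_involution (fun z _ => z.swap) ?_ ?_ ?_ ?_
  · intro z _
    simp only [Prod.fst_swap, Prod.snd_swap]
    rw [hA.apply z.2 z.1]
    generalize p z.1 = a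
    generalize p z.2 = b
    generalize A z.1 z.2 = c
    revert a b c; decide
  · intro z _ hz heq
    apply hz
    have : z.1 = z.2 := by
      have := congrArg Prod.snd heq
      simpa using this
    rw [this, hA.diag]; simp
  · intro z _; simp
  · intro z _; simp

/-- the column space -/
abbrev ColS (A : Matrix X X (ZMod 2)) : Submodule (ZMod 2) (X → ZMod 2) :=
  LinearMap.range A.mulVecLin

theorem exists_section (A : Matrix X X (ZMod 2)) :
    ∃ s : ColS A →ₗ[ZMod 2] (X → ZMod 2), ∀ u : ColS A, A *ᵥ (s u) = u := by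
  obtain ⟨s, hs⟩ := LinearMap.exists_rightInverse_of_surjective A.mulVecLin.rangeRestrict
    (LinearMap.range_rangeRestrict _)
  refine ⟨s, fun u => ?_⟩
  have := congrArg (fun f => ((f u : ColS A) : X → ZMod 2)) hs
  simpa using this

noncomputable def sec (A : Matrix X X (ZMod 2)) : ColS A →ₗ[ZMod 2] (X → ZMod 2) :=
  (exists_section A).choose

theorem sec_spec (A : Matrix X X (ZMod 2)) (u : ColS A) : A *ᵥ (sec A u) = u :=
  (exists_section A).choose_spec u

/-- The dual form on the column space. -/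
noncomputable def dForm (A : Matrix X X (ZMod 2)) :
    ColS A →ₗ[ZMod 2] ColS A →ₗ[ZMod 2] ZMod 2 :=
  LinearMap.mk₂ (ZMod 2) (fun u w => sec A u ⬝ᵥ (w : X → ZMod 2))
    (fun u u' w => by rw [map_add, add_dotProduct])
    (fun c u w => by rw [map_smul, smul_dotProduct])
    (fun u w w' => by rw [Submodule.coe_add, dotProduct_add])
    (fun c u w => by rw [Submodule.coe_smul, dotProduct_smul])

theorem dForm_apply (A : Matrix X X (ZMod 2)) (u w : ColS A) :
    dForm A u w = sec A u ⬝ᵥ (w : X → ZMod 2) := rfl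

theorem dForm_eq {A : Matrix X X (ZMod 2)} (hA : IsAltM A) (u w : ColS A) (q : X → ZMod 2)
    (hq : A *ᵥ q = w) : dForm A u w = (u : X → ZMod 2) ⬝ᵥ q := by
  rw [dForm_apply, ← hq, hA.dot, sec_spec]

theorem isSymp_dForm {A : Matrix X X (ZMod 2)} (hA : IsAltM A) : IsSymp (dForm A) where
  alt u := by
    rw [dForm_apply]
    conv_lhs => rw [← sec_spec A u]
    exact hA.quad _
  nondeg u hu := by
    apply Subtype.ext
    funext z
    have h := hu ⟨A *ᵥ (Pi.single z 1), ⟨Pi.single z 1, rfl⟩⟩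
    rw [dForm_eq hA _ _ (Pi.single z 1) rfl] at h
    simpa using h

/-- the vector of a vertex: the column of the matrix -/
def vtx (A : Matrix X X (ZMod 2)) (z : X) : ColS A := ⟨A *ᵥ (Pi.single z 1), ⟨Pi.single z 1, rfl⟩⟩

theorem vtx_coe (A : Matrix X X (ZMod 2)) (z : X) : (vtx A z : X → ZMod 2) = A.col z := by
  show A *ᵥ (Pi.single z 1) = _
  simp

theorem dForm_vtx {A : Matrix X X (ZMod 2)} (hA : IsAltM A) (u : ColS A) (z : X) :
    dForm A u (vtx A z) = (u : X → ZMod 2) z := by
  rw [dForm_eq hA _ _ (Pi.single z 1) rfl]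
  simp

theorem vtx_form {A : Matrix X X (ZMod 2)} (hA : IsAltM A) (x y : X) :
    dForm A (vtx A x) (vtx A y) = A x y := by
  rw [dForm_vtx hA, vtx_coe, hA.apply]
  rfl

theorem span_vtx (A : Matrix X X (ZMod 2)) :
    Submodule.span (ZMod 2) (Set.range (vtx A)) = ⊤ := by
  rw [eq_top_iff]
  rintro ⟨u, ⟨c, rfl⟩⟩ -
  have : (⟨A.mulVecLin c, ⟨c, rfl⟩⟩ : ColS A) = ∑ z, c z • vtx A z := by
    apply Subtype.ext
    rw [Submodule.coe_sum]
    simp only [Submodule.coe_smul, vtx]
    show A *ᵥ c = _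
    have hc : c = ∑ z, c z • (Pi.single z 1 : X → ZMod 2) := by
      funext w
      simp [Finset.sum_apply, Pi.single_apply]
    conv_lhs => rw [hc]
    rw [← mulVecLin_apply, map_sum]
    refine Finset.sum_congr rfl fun z _ => ?_
    rw [map_smul]; rfl
  rw [this]
  exact Submodule.sum_mem _ fun z _ => Submodule.smul_mem _ _ (Submodule.subset_span ⟨z, rfl⟩)

/-- `g`, `h` are in the column space, and are not orthogonal for the dual form. -/
def CritV (A : Matrix X X (ZMod 2)) (g h : X → ZMod 2) : Prop :=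
  ∃ p q, A *ᵥ p = g ∧ A *ᵥ q = h ∧ p ⬝ᵥ h = 1

/-- flipping the entries at `x, y` -/
def flipM (A : Matrix X X (ZMod 2)) (x y : X) : Matrix X X (ZMod 2) :=
  A + Matrix.single x y 1 + Matrix.single y x 1

/-- the columns are distinct and nonzero -/
def GoodCols (A : Matrix X X (ZMod 2)) : Prop :=
  (∀ i j, A.col i = A.col j → i = j) ∧ ∀ i, A.col i ≠ 0

/-- critical pair, with the side condition on the columns -/
structure CritM (A : Matrix X X (ZMod 2)) (x y : X) : Prop where
  ne : x ≠ y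
  crit : CritV A (Pi.single x 1) (Pi.single y 1)
  good : GoodCols (flipM A x y)

theorem CritM.toCrit {A : Matrix X X (ZMod 2)} (hA : IsAltM A) {x y : X} (c : CritM A x y) :
    ∃ p q : ColS A, Crit (dForm A) (vtx A) x y p q := by
  obtain ⟨p, q, hp, hq, hpq⟩ := c.crit
  refine ⟨⟨Pi.single x 1, ⟨p, hp⟩⟩, ⟨Pi.single y 1, ⟨q, hq⟩⟩, ?_, ?_, ?_, c.ne, ?_, ?_⟩
  · intro z
    rw [dForm_vtx hA]
    exact Pi.single_apply x 1 z
  · intro z
    rw [dForm_vtx hA]
    exact Pi.single_apply y 1 z
  · rw [dForm_eq hA _ _ q hq]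
    show (Pi.single x 1 : X → ZMod 2) ⬝ᵥ q = 1
    rw [← hp, ← hA.dot, hq]
    exact hpq
  all_goals
    have key : ∀ z, ((modif (vtx A) x y (⟨Pi.single x 1, ⟨p, hp⟩⟩ : ColS A)
        (⟨Pi.single y 1, ⟨q, hq⟩⟩ : ColS A) z : ColS A) : X → ZMod 2) = (flipM A x y).col z := by
      intro z
      unfold modif
      rw [Submodule.coe_add, Submodule.coe_add, vtx_coe]
      funext w
      simp only [Pi.add_apply, flipM, Matrix.col_apply, Matrix.add_apply]
      have h1 : (((if z = x then (⟨Pi.single y 1, ⟨q, hq⟩⟩ : ColS A) else 0 : ColS A)) :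
          X → ZMod 2) w = Matrix.single y x (1 : ZMod 2) w z := by
        by_cases h : z = x
        · subst h
          simp [Matrix.single_apply, Pi.single_apply, eq_comm]
        · simp [h, Matrix.single_apply, Ne.symm h]
      have h2 : (((if z = y then (⟨Pi.single x 1, ⟨p, hp⟩⟩ : ColS A) else 0 : ColS A)) :
          X → ZMod 2) w = Matrix.single x y (1 : ZMod 2) w z := by
        by_cases h : z = y
        · subst h
          simp [Matrix.single_apply, Pi.single_apply, eq_comm]
        · simp [h, Matrix.single_apply, Ne.symm h]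
      rw [h1, h2, add_assoc, add_assoc, add_comm (Matrix.single y x (1 : ZMod 2) w z)]
  · intro z z' h
    apply c.good.1
    rw [← key z, ← key z', show modif _ _ _ _ _ z = modif _ _ _ _ _ z' from h]
  · intro z h
    apply c.good.2 z
    rw [← key z, h]; rfl

/-- **Matrix form of the criterion.** -/
theorem exists_indSat {A : Matrix X X (ZMod 2)} (hA : IsAltM A) {H : SimpleGraph X}
    (hH : ∀ x y, H.Adj x y ↔ A x y = 1) {x y : X} (c : CritM A x y) (h : A x y = 1)
    {x' y' : X} (c' : CritM A x' y') (h' : A x' y' = 0) :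
    ∃ m : ℕ, Fintype.card X ≤ m ∧ m < 2 ^ Fintype.card X ∧
      ∃ G : SimpleGraph (Fin m), IndSat H G := by
  classical
  obtain ⟨p, q, hc⟩ := c.toCrit hA
  obtain ⟨p', q', hc'⟩ := c'.toCrit hA
  have hB := isSymp_dForm hA
  have key : IndSat H (sGraph hB p q) := by
    refine indSat_sGraph hB (span_vtx A) (fun x y => ?_) hc ((hH _ _).2 h) hc' ?_
    · rw [vtx_form hA, hH]
    · rw [hH, h']; exact zero_ne_one
  have : Fintype {u : ColS A // u ∈ Perp (dForm A) p q ∧ u ≠ 0} := Fintype.ofFinite _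
  refine ⟨_, ?_, ?_, key.toFin⟩
  · refine Fintype.card_le_of_injective
      (fun z : X => (⟨modif (vtx A) x y p q z, hc.mem hB z, hc.ne z⟩ :
        {u : ColS A // u ∈ Perp (dForm A) p q ∧ u ≠ 0})) ?_
    intro z z' hz
    exact hc.inj (congrArg Subtype.val hz)
  · have h1 : Fintype.card (X → ZMod 2) = 2 ^ Fintype.card X := by
      rw [Fintype.card_fun, ZMod.card]
    rw [← h1]
    refine Fintype.card_lt_of_injective_of_notMem
      (fun u : {u : ColS A // u ∈ Perp (dForm A) p q ∧ u ≠ 0} => ((u : ColS A) : X → ZMod 2))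
      (fun u w huw => Subtype.ext (Subtype.ext huw)) (b := 0) ?_
    rintro ⟨u, hu⟩
    exact u.2.2 (Subtype.ext hu)

end Mat

end Run7.h8
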