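import Mathlib

set_option autoImplicit false

namespace Run7.h8

open Module

theorem z2_cases (a : ZMod 2) : a = 0 ∨ a = 1 := by
  revert a; decide

theorem z2_ne_zero {a : ZMod 2} (h : a ≠ 0) : a = 1 := (z2_cases a).resolve_left h

theorem z2_add_self (a : ZMod 2) : a + a = 0 := by
  revert a; decide

theorem z2_add_one_of_ne {a b : ZMod 2} (h : a ≠ b) : a + 1 = b := by
  revert a b; decide

section Symp

variable {V : Type*} [AddCommGroup V] [Module (ZMod 2) V]

theorem vadd_self (v : V) : v + v = 0 := by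
  have h : ((1 : ZMod 2) + 1) • v = 0 := by
    have : (1 : ZMod 2) + 1 = 0 := by decide
    rw [this, zero_smul]
  rwa [add_smul, one_smul] at h

theorem vadd_eq_zero {u v : V} (h : u + v = 0) : u = v := by
  have := vadd_self v
  have h2 : u + v = v + v := by rw [h, this]
  exact add_right_cancel h2

/-- A symplectic form over `ZMod 2`: bilinear, alternating and nondegenerate. -/
structure IsSymp (B : V →ₗ[ZMod 2] V →ₗ[ZMod 2] ZMod 2) : Prop where
  alt : ∀ u, B u u = 0
  nondeg : ∀ u, (∀ v, B u v = 0) → u = 0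

namespace IsSymp

variable {B : V →ₗ[ZMod 2] V →ₗ[ZMod 2] ZMod 2}

theorem symm (hB : IsSymp B) (u v : V) : B u v = B v u := by
  have h := hB.alt (u + v)
  simp only [map_add, LinearMap.add_apply, hB.alt, zero_add, add_zero] at h
  rcases z2_cases (B u v) with h1 | h1 <;> rcases z2_cases (B v u) with h2 | h2 <;>
    simp_all

/-- Every functional is represented by a vector. -/
theorem repr [FiniteDimensional (ZMod 2) V] (hB : IsSymp B) (f : V →ₗ[ZMod 2] ZMod 2) :
    ∃ w, ∀ u, B u w = f u := by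
  have hinj : Function.Injective B := by
    rw [← LinearMap.ker_eq_bot, LinearMap.ker_eq_bot']
    intro u hu
    exact hB.nondeg u (fun v => by rw [hu]; rfl)
  have hsurj : Function.Surjective B :=
    (LinearMap.injective_iff_surjective_of_finrank_eq_finrank
      (Subspace.dual_finrank_eq (K := ZMod 2) (V := V)).symm).1 hinj
  obtain ⟨w, hw⟩ := hsurj f
  exact ⟨w, fun u => by rw [hB.symm u w, hw]⟩

theorem sep [FiniteDimensional (ZMod 2) V] (hB : IsSymp B) {p : Submodule (ZMod 2) V} {x : V}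
    (hx : x ∉ p) : ∃ w, B x w = 1 ∧ ∀ u ∈ p, B u w = 0 := by
  obtain ⟨f, hf1, hf2⟩ := Submodule.exists_le_ker_of_notMem hx
  obtain ⟨w, hw⟩ := hB.repr f
  refine ⟨w, ?_, fun u hu => ?_⟩
  · rw [hw]; exact z2_ne_zero hf1
  · rw [hw]; exact hf2 hu

theorem exists_one (hB : IsSymp B) {u : V} (hu : u ≠ 0) : ∃ w, B u w = 1 := by
  by_contra h
  push Not at h
  exact hu (hB.nondeg u fun v => by
    rcases z2_cases (B u v) with h1 | h1
    · exact h1
    · exact absurd h1 (h v))

theorem exists_one_one (hB : IsSymp B) {u v : V} (hu : u ≠ 0) (hv : v ≠ 0) :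
    ∃ w, B u w = 1 ∧ B v w = 1 := by
  obtain ⟨w1, h1⟩ := hB.exists_one hu
  obtain ⟨w2, h2⟩ := hB.exists_one hv
  rcases z2_cases (B v w1) with h3 | h3
  · rcases z2_cases (B u w2) with h4 | h4
    · exact ⟨w1 + w2, by simp [h1, h4], by simp [h2, h3]⟩
    · exact ⟨w2, h4, h2⟩
  · exact ⟨w1, h1, h3⟩

/-- The transvection `v ↦ v + B(v,c) c`. -/
noncomputable def trans (B : V →ₗ[ZMod 2] V →ₗ[ZMod 2] ZMod 2) (c : V) :
    V →ₗ[ZMod 2] V := LinearMap.id + (B.flip c).smulRight c

theorem trans_apply (c v : V) : trans B c v = v + (B v c) • c := by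
  simp [trans]

theorem trans_iso (hB : IsSymp B) (c u v : V) : B (trans B c u) (trans B c v) = B u v := by
  simp only [trans_apply, map_add, map_smul, LinearMap.add_apply, LinearMap.smul_apply,
    smul_eq_mul, hB.alt c, mul_zero, add_zero]
  rw [hB.symm c v]
  rcases z2_cases (B u c) with h1 | h1 <;> rcases z2_cases (B v c) with h2 | h2 <;>
    simp [h1, h2, add_assoc, z2_add_self]

/-- `h` preserves the form. -/
def Pres (B : V →ₗ[ZMod 2] V →ₗ[ZMod 2] ZMod 2) (h : V →ₗ[ZMod 2] V) : Prop :=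
  ∀ u v, B (h u) (h v) = B u v

theorem Pres.comp {h g : V →ₗ[ZMod 2] V} (hh : Pres B h) (hg : Pres B g) : Pres B (h ∘ₗ g) :=
  fun u v => by
    show B (h (g u)) (h (g v)) = _
    rw [hh, hg]

theorem Pres.inj (hB : IsSymp B) {h : V →ₗ[ZMod 2] V} (hh : Pres B h) : Function.Injective h := by
  rw [← LinearMap.ker_eq_bot, LinearMap.ker_eq_bot']
  intro u hu
  refine hB.nondeg u fun v => ?_
  rw [← hh u v, hu]; simp

theorem move_step (hB : IsSymp B) {b b' : V} (h : B b b' = 1) :
    trans B (b + b') b = b' := by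
  rw [trans_apply]
  simp only [map_add, hB.alt, zero_add, h, one_smul]
  rw [← add_assoc, vadd_self, zero_add]

theorem fix_step (hB : IsSymp B) {a b b' : V} (h : B a b = B a b') :
    trans B (b + b') a = a := by
  rw [trans_apply]
  simp [h, z2_add_self]

/-- transitivity on nonzero vectors -/
theorem move_one (hB : IsSymp B) {a a' : V} (ha : a ≠ 0) (ha' : a' ≠ 0) :
    ∃ h : V →ₗ[ZMod 2] V, Pres B h ∧ h a = a' := by
  obtain ⟨w, h1, h2⟩ := hB.exists_one_one ha ha'
  refine ⟨trans B (w + a') ∘ₗ trans B (a + w),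
    Pres.comp (fun u v => hB.trans_iso _ u v) (fun u v => hB.trans_iso _ u v), ?_⟩
  show trans B (w + a') (trans B (a + w) a) = a'
  rw [hB.move_step h1]
  exact hB.move_step (by rw [hB.symm]; exact h2)

/-- existence of an intermediate vector -/
theorem exists_mid [FiniteDimensional (ZMod 2) V] (hB : IsSymp B) {a b b' : V}
    (hb : b ≠ 0) (hb' : b' ≠ 0) (hab : a ≠ b) (hab' : a ≠ b') (ha : a ≠ 0)
    (hbb : b ≠ b') (h : B a b = B a b') (h0 : B b b' = 0) :
    ∃ w, B b w = 1 ∧ B b' w = 1 ∧ B a w = B a b := by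
  obtain ⟨w, h1, h2⟩ := hB.exists_one_one hb hb'
  by_cases hw : B a w = B a b
  · exact ⟨w, h1, h2, hw⟩
  -- need to correct the value on a
  by_cases hmem : a ∈ Submodule.span (ZMod 2) ({b, b'} : Set V)
  · exfalso
    rw [Submodule.mem_span_pair] at hmem
    obtain ⟨s, t, hst⟩ := hmem
    rcases z2_cases s with hs | hs <;> rcases z2_cases t with ht | ht <;>
      simp only [hs, ht, zero_smul, one_smul, zero_add, add_zero] at hst
    · exact ha hst.symm
    · exact hab' hst.symm
    · exact hab hst.symm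
    · apply hw
      rw [← hst]
      simp only [map_add, LinearMap.add_apply, h1, h2, hB.alt, zero_add]
      rw [hB.symm b' b, h0]
      decide
  · obtain ⟨w', h3, h4⟩ := hB.sep hmem
    refine ⟨w + w', ?_, ?_, ?_⟩
    · rw [map_add, h1, h4 b (Submodule.subset_span (by simp)), add_zero]
    · rw [map_add, h2, h4 b' (Submodule.subset_span (by simp)), add_zero]
    · rw [map_add, h3]
      exact z2_add_one_of_ne hw

theorem move_two_fix [FiniteDimensional (ZMod 2) V] (hB : IsSymp B) {a b b' : V}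
    (ha : a ≠ 0) (hb : b ≠ 0) (hb' : b' ≠ 0) (hab : a ≠ b) (hab' : a ≠ b')
    (h : B a b = B a b') :
    ∃ g : V →ₗ[ZMod 2] V, Pres B g ∧ g a = a ∧ g b = b' := by
  by_cases hbb : b = b'
  · exact ⟨LinearMap.id, fun u v => rfl, rfl, hbb⟩
  rcases z2_cases (B b b') with h0 | h0
  · obtain ⟨w, h1, h2, h3⟩ := hB.exists_mid hb hb' hab hab' ha hbb h h0
    refine ⟨trans B (w + b') ∘ₗ trans B (b + w),
      Pres.comp (fun u v => hB.trans_iso _ u v) (fun u v => hB.trans_iso _ u v), ?_, ?_⟩
    · show trans B (w + b') (trans B (b + w) a) = a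
      rw [hB.fix_step h3.symm]
      exact hB.fix_step (by rw [h3, h])
    · show trans B (w + b') (trans B (b + w) b) = b'
      rw [hB.move_step h1]
      exact hB.move_step (by rw [hB.symm]; exact h2)
  · exact ⟨trans B (b + b'), fun u v => hB.trans_iso _ u v, hB.fix_step h, hB.move_step h0⟩

/-- The isometries act transitively on pairs of distinct nonzero vectors with a given value of
the form. -/
theorem move_two [FiniteDimensional (ZMod 2) V] (hB : IsSymp B) {a b a' b' : V}
    (ha : a ≠ 0) (hb : b ≠ 0) (hab : a ≠ b) (ha' : a' ≠ 0) (hb' : b' ≠ 0) (hab' : a' ≠ b')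
    (h : B a b = B a' b') :
    ∃ g : V →ₗ[ZMod 2] V, Pres B g ∧ g a = a' ∧ g b = b' := by
  obtain ⟨g1, hg1, h1⟩ := hB.move_one ha ha'
  have hinj := hg1.inj hB
  have hgb : g1 b ≠ 0 := fun h0 => hb (hinj (by rw [h0, map_zero]))
  have hne : a' ≠ g1 b := fun h0 => hab (hinj (by rw [h1, h0]))
  obtain ⟨g2, hg2, h2, h3⟩ := hB.move_two_fix (a := a') (b := g1 b) (b' := b') ha' hgb hb'
    hne hab' (by rw [← h, ← hg1 a b, h1])
  refine ⟨g2 ∘ₗ g1, hg2.comp hg1, ?_, ?_⟩
  · show g2 (g1 a) = a'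
    rw [h1, h2]
  · exact h3

end IsSymp

end Symp

end Run7.h8
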